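import Mathlib
import Pool.Agent.Lib.P0c8ca5.Conj
import Pool.Agent.Lib.P0c8ca5N.WSum

/-!
# Families of orthogonal idempotents permuted by the group

`A` acts on the type `ι` through `Φ`, `St Φ i` is the stabilizer of `i`.  `Fam Φ ε`: the elements
`ε i` of `kA` are pairwise orthogonal idempotents, `g (ε i) g⁻¹ = ε (g i)` and `ε i` is supported in the
stabilizer of `i`.  (Main example: the blocks of a normal subgroup `N` conjugate to a given one.)
-/

namespace Pool.Agent.Lib.P0c8ca5.Fr

open MonoidAlgebra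

variable {p : ℕ} {k : Type*} [Field k] {A : Type*} [Group A] {ι : Type*}

/-- the stabilizer of `i` -/
def St (Φ : A →* Equiv.Perm ι) (i : ι) : Subgroup A where
  carrier := {g | Φ g i = i}
  mul_mem' := by
    intro a b ha hb
    change Φ (a * b) i = i
    rw [map_mul, Equiv.Perm.mul_apply, hb, ha]
  one_mem' := by
    change Φ 1 i = i
    rw [map_one, Equiv.Perm.one_apply]
  inv_mem' := by
    intro a ha
    change Φ a⁻¹ i = i
    rw [map_inv, Equiv.Perm.inv_eq_iff_eq]
    exact ha.symm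

theorem mem_St {Φ : A →* Equiv.Perm ι} {i : ι} {g : A} : g ∈ St Φ i ↔ Φ g i = i := Iff.rfl

theorem St_apply (Φ : A →* Equiv.Perm ι) (g : A) (i : ι) : St Φ (Φ g i) = cg g (St Φ i) := by
  ext x
  rw [mem_cg, mem_St, mem_St, map_mul, map_mul, map_inv, Equiv.Perm.mul_apply,
    Equiv.Perm.mul_apply, Equiv.Perm.inv_eq_iff_eq]

/-- a family of orthogonal idempotents permuted by the group -/
structure Fam (Φ : A →* Equiv.Perm ι) (ε : ι → MonoidAlgebra k A) : Prop where
  idem : ∀ i, ε i * ε i = ε i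
  orth : ∀ i j, i ≠ j → ε i * ε j = 0
  conj : ∀ g i, cj g (ε i) = ε (Φ g i)
  supp : ∀ i, SuppIn (St Φ i) (ε i)

section
variable {Φ : A →* Equiv.Perm ι} {ε : ι → MonoidAlgebra k A}

theorem Fam.inv (h : Fam Φ ε) (i : ι) : InvBy (St Φ i) (ε i) := by
  rw [invBy_iff_cj]
  intro g hg
  rw [h.conj, mem_St.1 hg]

theorem Fam.mem (h : Fam Φ ε) (i : ι) : ε i ∈ fixAlg k (St Φ i) (St Φ i) :=
  mem_fixAlg.2 ⟨h.supp i, h.inv i⟩

theorem comm_top [Finite A] {f : MonoidAlgebra k A} (hf : f ∈ fixAlg k (⊤ : Subgroup A) ⊤)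
    (a : MonoidAlgebra k A) : f * a = a * f :=
  (commute_of (K := ⊤) (fun _ _ => Subgroup.mem_top _) (mem_fixAlg.1 hf).2).symm

theorem cj_top {f : MonoidAlgebra k A} (hf : f ∈ fixAlg k (⊤ : Subgroup A) ⊤) (g : A) :
    cj g f = f := invBy_iff_cj.1 (mem_fixAlg.1 hf).2 g (Subgroup.mem_top g)

/-- `ε i x ε i = 0` for `x` outside of the stabilizer of `i` -/
theorem Fam.sandwich (h : Fam Φ ε) (i : ι) {x : A} (hx : x ∉ St Φ i) :
    ε i * single x (1 : k) * ε i = 0 := by
  have h1 : single x (1 : k) * ε i = ε (Φ x i) * single x 1 := by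
    rw [← h.conj x i, cj, mul_assoc, mul_assoc, single_mul_single, inv_mul_cancel, one_mul]
    change single x (1 : k) * ε i = single x 1 * (ε i * 1)
    rw [mul_one]
  rw [mul_assoc, h1, ← mul_assoc, h.orth i (Φ x i) (fun h' => hx h'.symm), zero_mul]

/-- `ε i a ε i` is supported in the stabilizer of `i` -/
theorem Fam.supp_sandwich [Fintype A] (h : Fam Φ ε) (i : ι) (a : MonoidAlgebra k A) :
    SuppIn (St Φ i) (ε i * a * ε i) := by
  classical
  have h1 : a = ∑ x : A, a.coeff x • single x (1 : k) := by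
    ext y
    rw [coeff_sum, Finsupp.finsetSum_apply, Finset.sum_eq_single y]
    · change a.coeff y = a.coeff y * (single y (1 : k)).coeff y
      rw [coeff_single, Finsupp.single_eq_same, mul_one]
    · intro x _ hx
      change a.coeff x * (single x (1 : k)).coeff y = 0
      rw [coeff_single, Finsupp.single_eq_of_ne hx.symm, mul_zero]
    · intro h'; exact absurd (Finset.mem_univ _) h'
  rw [h1, Finset.mul_sum, Finset.sum_mul]
  apply SuppIn.sum
  intro x _
  rw [mul_smul_comm, smul_mul_assoc]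
  by_cases hx : x ∈ St Φ i
  · have h2 : SuppIn (St Φ i) (single x (1 : k)) := by
      intro y hy
      by_contra h3
      apply hy
      rw [coeff_single, Finsupp.single_eq_of_ne]
      rintro rfl
      exact h3 hx
    intro y hy
    apply ((h.supp i).mul h2).mul (h.supp i) y
    intro h0
    apply hy
    change a.coeff x * (ε i * single x (1 : k) * ε i).coeff y = 0
    rw [h0, mul_zero]
  · rw [h.sandwich i hx, smul_zero]
    exact suppIn_zero

/-- multiplication with a central idempotent -/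
theorem Fam.mulL [Fintype A] (h : Fam Φ ε) {f : MonoidAlgebra k A}
    (hf : f ∈ fixAlg k (⊤ : Subgroup A) ⊤) (hff : f * f = f) : Fam Φ (fun i => f * ε i) where
  idem := fun i => by
    rw [mul_assoc, ← mul_assoc (ε i), ← comm_top hf (ε i), mul_assoc f, h.idem, ← mul_assoc, hff]
  orth := fun i j hij => by
    rw [mul_assoc, ← mul_assoc (ε i), ← comm_top hf (ε i), mul_assoc f, h.orth i j hij, mul_zero,
      mul_zero]
  conj := fun g i => by
    rw [cj_mul, cj_top hf, h.conj]
  supp := fun i => by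
    have h1 : f * ε i = ε i * f * ε i := by
      rw [← comm_top hf (ε i), mul_assoc, h.idem]
    rw [h1]
    exact h.supp_sandwich i f

theorem Fam.sum_mem [Fintype A] [Fintype ι] (h : Fam Φ ε) :
    ∑ i, ε i ∈ fixAlg k (⊤ : Subgroup A) ⊤ := by
  refine mem_fixAlg.2 ⟨fun _ _ => Subgroup.mem_top _, ?_⟩
  rw [invBy_iff_cj]
  intro g _
  rw [cj_sum]
  exact Fintype.sum_equiv (Φ g) _ _ (fun i => h.conj g i)

theorem Fam.sum_mul [Fintype ι] (h : Fam Φ ε) (i : ι) : (∑ j, ε j) * ε i = ε i := by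
  classical
  rw [Finset.sum_mul, Finset.sum_eq_single i]
  · exact h.idem i
  · intro j _ hj
    exact h.orth j i hj
  · intro h'; exact absurd (Finset.mem_univ _) h'

theorem Fam.sum_idem [Fintype ι] (h : Fam Φ ε) : (∑ j, ε j) * (∑ j, ε j) = ∑ j, ε j := by
  rw [Finset.mul_sum]
  exact Finset.sum_congr rfl (fun i _ => h.sum_mul i)

/-- the conjugates of the products with a central element -/
theorem Fam.ne_zero_apply (h : Fam Φ ε) {f : MonoidAlgebra k A}
    (hf : f ∈ fixAlg k (⊤ : Subgroup A) ⊤) {i : ι} (hne : f * ε i ≠ 0) (g : A) :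
    f * ε (Φ g i) ≠ 0 := by
  intro h0
  apply hne
  rw [← h.conj g i] at h0
  have h1 := congrArg (cj g⁻¹) h0
  rw [cj_mul, cj_top hf, cj_cj, inv_mul_cancel, cj_one_left, cj_zero] at h1
  exact h1

end

open Classical in
/-- the weighted number of the weights of `c` (a central idempotent of `kK`) -/
noncomputable def Ws (p : ℕ) [Fintype A] (K : Subgroup A) (c : MonoidAlgebra k A) : ℕ :=
  ∑ Q ∈ Finset.univ.filter (fun Q : Subgroup A => Q ≤ K ∧ IsPGroup p Q),
    Nat.card ↥(K ⊓ Subgroup.normalizer (Q : Set A))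
      * Nat.card {f : MonoidAlgebra k (NQ Q) | IsDZ p (sec K Q) f ∧ f * proj Q c = f}

end Pool.Agent.Lib.P0c8ca5.Fr
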