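import Mathlib
import Pool.Agent.Lib.P0c8ca5P.Fam

/-!
# Module FrA: the blocks of `A` over `ε i` and the blocks of the stabilizer of `i` under `ε i`

PROOF.  Fix `i`, write `S = St Φ i`.  For `j` in the orbit of `i` choose `t j` with `Φ (t j) i = j`.  For
`g ∈ fixAlg k S S` with `g * ε i = g` (then `ε i * g = g`, `commute_of`) put
`F = ∑_{j in the orbit} cj (t j) g`.
(1) `F` is in `fixAlg k ⊤ ⊤`: `cj x (cj (t j) g) = cj (t (Φ x j)) g` because
`(t (Φ x j))⁻¹ * x * t j ∈ S` and `g` is `S`-invariant; reindex the sum by `Φ x`.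
(2) `ε l * cj (t j) g = 0` for `l ≠ j` and `= cj (t j) g` for `l = j`, because
`cj (t j) g = cj (t j) (ε i * g) = ε j * cj (t j) g`.  Hence `cj (t j) g * cj (t l) g = 0` for `j ≠ l`
(both are multiples of different `ε`s, on both sides), `F * F = F` if `g * g = g`, `ε i * F = g`
(`t i ∈ S`, so `cj (t i) g = g`).
* `block_transitive`: `s = ∑_{j in the orbit of i} ε j` is a central idempotent (reindex), `f * s` is
  `0` or `f` (`IsBlock.mul_eq`), `f * s * ε i = f * ε i ≠ 0`, so `f * s = f`; if `j` is not in the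
  orbit then `f * ε j = f * s * ε j = 0`.
* `isBlock_mul`: `f * ε i` is in `fixAlg k S S` and idempotent (`Fam.mulL`, `Fam.mem`).  Primitive: let
  `g ∈ fixAlg k S S`, `g * g = g`, `g * (f * ε i) = g`.  Then `g * ε i = g` and `g * f = g`.  `F` as
  above is a central idempotent with `F * f = F` (`f` is central), so `F = 0` or `F = f`, so
  `g = ε i * F` is `0` or `ε i * f = f * ε i`.
* `exists_block_mul`: `F ≠ 0` as `ε i * F = g ≠ 0`.  By `exists_prim_le` there is a block `f` with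
  `f * F = f`.  `f * F = ∑ f * cj (t j) g ≠ 0`, so some `f * cj (t j) g ≠ 0`, so `f * g ≠ 0`
  (conjugate, `cj_top`), so `f * ε i * g = f * g ≠ 0` and `f * ε i ≠ 0`.  `f * ε i` and `g` are blocks of
  `S` with nonzero product, so they are equal (`IsBlock.eq_or_mul_eq_zero`).
* `block_mul_inj`: `f * f' * ε i = (f * ε i) * (f' * ε i) = f * ε i ≠ 0`, so `f * f' ≠ 0`, `f = f'`.
* `exists_mul_ne`: otherwise `f = f * ∑ i, ε i = 0`.
-/

namespace Pool.Agent.Lib.P0c8ca5.Fr

open MonoidAlgebra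

variable {p : ℕ} {k : Type*} [Field k] {A : Type*} [Group A] {ι : Type*}
variable {Φ : A →* Equiv.Perm ι} {ε : ι → MonoidAlgebra k A}

namespace FrAAux

open Classical in
/-- the orbit of `i` -/
noncomputable def orbF [Fintype ι] (Φ : A →* Equiv.Perm ι) (i : ι) : Finset ι :=
  Finset.univ.filter (fun j => ∃ g, Φ g i = j)

theorem mem_orbF [Fintype ι] {i j : ι} : j ∈ orbF Φ i ↔ ∃ g, Φ g i = j := by
  simp only [orbF, Finset.mem_filter, Finset.mem_univ, true_and]

theorem orbF_iff [Fintype ι] (x : A) {i : ι} (j : ι) : j ∈ orbF Φ i ↔ Φ x j ∈ orbF Φ i := by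
  rw [mem_orbF, mem_orbF]
  constructor
  · rintro ⟨g, rfl⟩
    exact ⟨x * g, by rw [map_mul, Equiv.Perm.mul_apply]⟩
  · rintro ⟨g, hg⟩
    refine ⟨x⁻¹ * g, ?_⟩
    rw [map_mul, Equiv.Perm.mul_apply, hg, ← Equiv.Perm.mul_apply, ← map_mul, inv_mul_cancel,
      map_one, Equiv.Perm.one_apply]

open Classical in
/-- a chosen element moving `i` to `j` -/
noncomputable def tt (Φ : A →* Equiv.Perm ι) (i j : ι) : A :=
  if h : ∃ g, Φ g i = j then h.choose else 1

theorem tt_spec {i j : ι} (h : ∃ g, Φ g i = j) : Φ (tt Φ i j) i = j := by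
  rw [tt, dif_pos h]
  exact h.choose_spec

/-- the relative trace -/
noncomputable def FF [Fintype ι] (Φ : A →* Equiv.Perm ι) (i : ι) (g : MonoidAlgebra k A) :
    MonoidAlgebra k A := ∑ j ∈ orbF Φ i, cj (tt Φ i j) g

theorem cj_of_mem {i : ι} {g : MonoidAlgebra k A} (hg : InvBy (St Φ i) g) {x y : A}
    (h : Φ x i = Φ y i) : cj x g = cj y g := by
  have h1 : y⁻¹ * x ∈ St Φ i := by
    rw [mem_St, map_mul, Equiv.Perm.mul_apply, h, ← Equiv.Perm.mul_apply, ← map_mul,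
      inv_mul_cancel, map_one, Equiv.Perm.one_apply]
  have h2 := invBy_iff_cj.1 hg _ h1
  have h3 : x = y * (y⁻¹ * x) := by group
  rw [h3, ← cj_cj, h2]

theorem FF_mem [Fintype A] [Fintype ι] {i : ι} {g : MonoidAlgebra k A}
    (hg : InvBy (St Φ i) g) : FF Φ i g ∈ fixAlg k (⊤ : Subgroup A) ⊤ := by
  refine mem_fixAlg.2 ⟨fun _ _ => Subgroup.mem_top _, ?_⟩
  rw [invBy_iff_cj]
  intro x _
  rw [FF, cj_sum]
  refine Finset.sum_equiv (Φ x) (orbF_iff x) ?_
  intro j hj
  rw [cj_cj]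
  apply cj_of_mem hg
  rw [map_mul, Equiv.Perm.mul_apply, tt_spec (mem_orbF.1 hj), tt_spec (mem_orbF.1 ((orbF_iff x j).1 hj))]

theorem self_mem_orbF [Fintype ι] (Φ : A →* Equiv.Perm ι) (i : ι) : i ∈ orbF Φ i :=
  mem_orbF.2 ⟨1, by rw [map_one, Equiv.Perm.one_apply]⟩

variable (h : Fam Φ ε)
include h

theorem mul_cj_self {i j : ι} (hj : ∃ g, Φ g i = j) {g : MonoidAlgebra k A}
    (hg : ε i * g = g) : ε j * cj (tt Φ i j) g = cj (tt Φ i j) g := by
  have h1 : cj (tt Φ i j) (ε i) = ε j := by rw [h.conj, tt_spec hj]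
  rw [← h1, ← cj_mul, hg]

theorem mul_cj_ne {i j l : ι} (hj : ∃ g, Φ g i = j) (hl : l ≠ j) {g : MonoidAlgebra k A}
    (hg : ε i * g = g) : ε l * cj (tt Φ i j) g = 0 := by
  rw [← mul_cj_self h hj hg, ← mul_assoc, h.orth l j hl, zero_mul]

theorem cj_mul_cj_ne {i j l : ι} (hj : ∃ g, Φ g i = j) (hl : ∃ g, Φ g i = l) (hjl : j ≠ l)
    {g : MonoidAlgebra k A} (hg : ε i * g = g) (hg' : g * ε i = g) :
    cj (tt Φ i j) g * cj (tt Φ i l) g = 0 := by
  have h1 : cj (tt Φ i j) g * ε j = cj (tt Φ i j) g := by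
    have h2 : cj (tt Φ i j) (ε i) = ε j := by rw [h.conj, tt_spec hj]
    rw [← h2, ← cj_mul, hg']
  rw [← h1, ← mul_cj_self h hl hg, mul_assoc, ← mul_assoc (ε j), h.orth j l hjl, zero_mul,
    mul_zero]

theorem FF_idem [Fintype ι] {i : ι} {g : MonoidAlgebra k A} (hgg : g * g = g)
    (hg : ε i * g = g) (hg' : g * ε i = g) : FF Φ i g * FF Φ i g = FF Φ i g := by
  classical
  rw [FF, Finset.sum_mul]
  refine Finset.sum_congr rfl (fun j hj => ?_)
  rw [Finset.mul_sum, Finset.sum_eq_single j]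
  · rw [← cj_mul, hgg]
  · intro l hl hlj
    exact cj_mul_cj_ne h (mem_orbF.1 hj) (mem_orbF.1 hl) hlj.symm hg hg'
  · intro h'; exact absurd hj h'

theorem mul_FF [Fintype ι] {i : ι} {g : MonoidAlgebra k A} (hinv : InvBy (St Φ i) g)
    (hg : ε i * g = g) : ε i * FF Φ i g = g := by
  classical
  rw [FF, Finset.mul_sum, Finset.sum_eq_single i]
  · have h1 := mem_orbF.1 (self_mem_orbF Φ i)
    rw [mul_cj_self h h1 hg]
    have h2 : cj (tt Φ i i) g = cj 1 g := cj_of_mem hinv (by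
      rw [tt_spec h1, map_one, Equiv.Perm.one_apply])
    rw [h2, cj_one_left]
  · intro l hl hli
    exact mul_cj_ne h (mem_orbF.1 hl) hli.symm hg
  · intro h'; exact absurd (self_mem_orbF Φ i) h'

end FrAAux

open FrAAux

theorem Fam.block_transitive [Fintype A] [Fintype ι] (h : Fam Φ ε) {f : MonoidAlgebra k A}
    (hf : IsBlock (⊤ : Subgroup A) f) {i j : ι} (hi : f * ε i ≠ 0) (hj : f * ε j ≠ 0) :
    ∃ g : A, Φ g i = j := by
  classical
  by_contra hcon
  have hs : ∑ l ∈ orbF Φ i, ε l ∈ fixAlg k (⊤ : Subgroup A) ⊤ := by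
    refine mem_fixAlg.2 ⟨fun _ _ => Subgroup.mem_top _, ?_⟩
    rw [invBy_iff_cj]
    intro x _
    rw [cj_sum]
    exact Finset.sum_equiv (Φ x) (orbF_iff x) (fun l _ => h.conj x l)
  have hsl : ∀ l ∈ orbF Φ i, (∑ l ∈ orbF Φ i, ε l) * ε l = ε l := by
    intro l hl
    rw [Finset.sum_mul, Finset.sum_eq_single l]
    · exact h.idem l
    · intro m _ hm
      exact h.orth m l hm
    · intro h'; exact absurd hl h'
  have hss : (∑ l ∈ orbF Φ i, ε l) * (∑ l ∈ orbF Φ i, ε l) = ∑ l ∈ orbF Φ i, ε l := by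
    rw [Finset.mul_sum]
    exact Finset.sum_congr rfl hsl
  have hsf : (∑ l ∈ orbF Φ i, ε l) * f = f := by
    rcases hf.mul_eq hs hss with h0 | h0
    · exfalso
      apply hi
      have h1 : (∑ l ∈ orbF Φ i, ε l) * f * ε i = f * ε i := by
        rw [comm_top hs f, mul_assoc, hsl i (self_mem_orbF Φ i)]
      rw [← h1, h0, zero_mul]
    · exact h0
  apply hj
  rw [← hsf, comm_top hs f, mul_assoc, Finset.sum_mul, Finset.sum_eq_zero, mul_zero]
  intro l hl
  apply h.orth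
  rintro rfl
  exact hcon (mem_orbF.1 hl)

theorem Fam.isBlock_mul [Fintype A] [Fintype ι] (h : Fam Φ ε) {f : MonoidAlgebra k A}
    (hf : IsBlock (⊤ : Subgroup A) f) {i : ι} (hi : f * ε i ≠ 0) :
    IsBlock (St Φ i) (f * ε i) := by
  have hm := h.mulL hf.mem hf.idem
  refine ⟨hm.mem i, hm.idem i, hi, ?_⟩
  intro g hg hgg hgf
  have hgε : g * ε i = g := by
    have h1 : g * (f * ε i) * ε i = g * ε i := by rw [hgf]
    rw [mul_assoc, mul_assoc f, h.idem, hgf] at h1
    exact h1.symm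
  have hεg : ε i * g = g := by
    rw [commute_of (h.supp i) (mem_fixAlg.1 hg).2, hgε]
  have hgf' : g * f = g := by
    have h1 : g * (f * ε i) = g * f := by
      rw [comm_top hf.mem, ← mul_assoc, hgε]
    rw [← h1, hgf]
  have hF := FF_mem (Φ := Φ) (i := i) (mem_fixAlg.1 hg).2
  have hFF := FF_idem h hgg hεg hgε
  have hFf : FF Φ i g * f = FF Φ i g := by
    rw [FF, Finset.sum_mul]
    refine Finset.sum_congr rfl (fun j _ => ?_)
    have h1 : cj (tt Φ i j) (g * f) = cj (tt Φ i j) g := by rw [hgf']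
    rwa [cj_mul, cj_top hf.mem] at h1
  have h2 := mul_FF h (mem_fixAlg.1 hg).2 hεg
  rcases hf.prim _ hF hFF hFf with h0 | h0
  · left
    rw [← h2, h0, mul_zero]
  · right
    rw [← h2, h0, comm_top hf.mem]

theorem Fam.exists_block_mul [Fact p.Prime] [CharP k p] [IsAlgClosed k] [Fintype A] [Fintype ι]
    (h : Fam Φ ε) {i : ι} {g : MonoidAlgebra k A} (hg : IsBlock (St Φ i) g) (hgi : g * ε i = g) :
    ∃ f : MonoidAlgebra k A, IsBlock (⊤ : Subgroup A) f ∧ f * ε i = g := by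
  classical
  have hεg : ε i * g = g := by
    rw [commute_of (h.supp i) hg.invBy, hgi]
  have hF := FF_mem (Φ := Φ) (i := i) hg.invBy
  have hFF := FF_idem h hg.idem hεg hgi
  have h2 := mul_FF h hg.invBy hεg
  let d : fixAlg k (⊤ : Subgroup A) ⊤ := ⟨FF Φ i g, hF⟩
  have hd0 : d ≠ 0 := by
    intro h0
    apply hg.ne_zero
    have h1 : FF Φ i g = 0 := congrArg Subtype.val h0
    rw [← h2, h1, mul_zero]
  have hdd : d * d = d := Subtype.ext hFF
  obtain ⟨f, hf, hfd⟩ := exists_prim_le k hd0 hdd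
  have hfb : IsBlock ⊤ f.1 := isBlock_of_primIdem hf
  have hfd' : f.1 * FF Φ i g = f.1 := congrArg Subtype.val hfd
  have hfg : f.1 * g ≠ 0 := by
    intro h0
    apply hfb.ne_zero
    rw [← hfd', FF, Finset.mul_sum]
    apply Finset.sum_eq_zero
    intro j _
    have h1 : cj (tt Φ i j) (f.1 * g) = 0 := by rw [h0, cj_zero]
    rwa [cj_mul, cj_top hfb.mem] at h1
  have hne : f.1 * ε i ≠ 0 := by
    intro h0
    apply hfg
    rw [← hεg, ← mul_assoc, h0, zero_mul]
  refine ⟨f.1, hfb, ?_⟩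
  rcases (h.isBlock_mul hfb hne).eq_or_mul_eq_zero hg with h3 | h3
  · exact h3
  · exfalso
    apply hfg
    rw [mul_assoc, hεg] at h3
    exact h3

theorem Fam.block_mul_inj [Fintype A] (h : Fam Φ ε) {f f' : MonoidAlgebra k A}
    (hf : IsBlock (⊤ : Subgroup A) f) (hf' : IsBlock (⊤ : Subgroup A) f') {i : ι}
    (hi : f * ε i ≠ 0) (heq : f * ε i = f' * ε i) : f = f' := by
  rcases hf.eq_or_mul_eq_zero hf' with h0 | h0
  · exact h0
  · exfalso
    apply hi
    have h1 : f * f' * ε i = f * ε i := by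
      rw [mul_assoc, ← heq, ← mul_assoc, hf.idem]
    rw [← h1, h0, zero_mul]

theorem Fam.exists_mul_ne [Fintype ι] {f : MonoidAlgebra k A} (hf : f ≠ 0)
    (hE : f * ∑ i, ε i = f) : ∃ i, f * ε i ≠ 0 := by
  by_contra hcon
  push Not at hcon
  apply hf
  rw [← hE, Finset.mul_sum]
  exact Finset.sum_eq_zero (fun i _ => hcon i)

end Pool.Agent.Lib.P0c8ca5.Fr
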