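import Mathlib
import Pool.Agent.Lib.P0c8ca5P.FrA
import Pool.Agent.Lib.P0c8ca5.MainB

/-!
# Module FrD: irreducible representations of `A` and of the stabilizer

`ρ` is a representation of `A` (as the subgroup `⊤` of `A`), `act ρ c` the action of `c ∈ kA`
(P0c8ca5.CliffC; `act_mul`, `act_apply`), `S = St Φ i`.  The maps `θ : W → V` below identify the
representation `σ` of `S` with the subspace `ε i V`.
PROOF of `exists_sub`.  `f * ε i ≠ 0`, `f = ∑ j, f * ε j` and `1 = act ρ f = ∑ j, act ρ (f * ε j)`, so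
some `act ρ (ε j) ≠ 0`; by `block_transitive` all `j` with `f * ε j ≠ 0` are conjugate to `i` and
`act ρ (cj g c) = ρ g ∘ act ρ c ∘ ρ g⁻¹`, so `act ρ (ε i) ≠ 0`.  Let `U` be its range: `S`-stable
(`ε i` commutes with `S`).  Irreducible: let `0 ≠ U' ≤ U` be `S`-stable.  The span of the `ρ g U'`,
`g ∈ A`, is `A`-stable and nonzero, so it is `V`; `act ρ (ε i) (ρ g u) = ρ g (act ρ (ε (Φ g⁻¹ i)) u)`,
which is `0` for `g ∉ S` (`u = act ρ (ε i) u`, orthogonality) and `ρ g u ∈ U'` for `g ∈ S`; so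
`U = act ρ (ε i) V ≤ U'`.  Take `σ` on `Fin n → k`, `n = dim U` (`subRep`, `trRep`).
PROOF of `exists_super`.  Let `ρ` be an irreducible representation of `A` in the coinduced (or
induced) representation: `exists_over` (P0c8ca5.CliffB) gives a nonzero `S`-map `π : V → W` (`Over`).
`act σ (f * ε i) = 1` and `π ∘ act ρ c = act σ c ∘ π` for `c` supported in `S`, so
`π = π ∘ act ρ (f * ε i)`, so `act ρ f ≠ 0`, `act ρ f = 1` (`act_zero_or_one`), and the restriction of
`π` to `U = act ρ (ε i) V` is nonzero between irreducible representations of `S` (`U` is irreducible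
by the proof of `exists_sub`), so it is bijective (`Irr'.injective`, `Irr'.surjective`).
-/

namespace Pool.Agent.Lib.P0c8ca5.Fr

open MonoidAlgebra

variable {p : ℕ} {k : Type*} [Field k] {A : Type*} [Group A] {ι : Type*}
variable {Φ : A →* Equiv.Perm ι} {ε : ι → MonoidAlgebra k A}

/-- `θ` identifies the representation `σ` of the stabilizer of `i` with `ε i V` -/
structure Sub (Φ : A →* Equiv.Perm ι) (ε : ι → MonoidAlgebra k A) (i : ι) {V W : Type*}
    [AddCommGroup V] [Module k V] [AddCommGroup W] [Module k W]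
    (ρ : Representation k (⊤ : Subgroup A) V) (σ : Representation k (St Φ i) W)
    (θ : W →ₗ[k] V) : Prop where
  inj : Function.Injective θ
  eqv : ∀ (g : St Φ i) (w : W), θ (σ g w) = ρ ⟨(g : A), Subgroup.mem_top _⟩ (θ w)
  range : LinearMap.range θ = LinearMap.range (act ρ (ε i))

namespace FrDAux

section
variable {V W : Type*} [AddCommGroup V] [Module k V] [AddCommGroup W] [Module k W]

theorem act_add [Finite A] {N : Subgroup A} (ρ : Representation k N V) (a b : MonoidAlgebra k A) :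
    act ρ (a + b) = act ρ a + act ρ b := by
  have : Fintype N := Fintype.ofFinite N
  ext v
  rw [LinearMap.add_apply, act_apply, act_apply, act_apply, ← Finset.sum_add_distrib]
  refine Finset.sum_congr rfl fun x _ => ?_
  rw [coeff_add, Finsupp.add_apply, add_smul]

theorem act_zero [Finite A] {N : Subgroup A} (ρ : Representation k N V) :
    act ρ (0 : MonoidAlgebra k A) = 0 := by
  have h := act_add ρ (0 : MonoidAlgebra k A) 0
  rw [add_zero] at h
  exact left_eq_add.1 h

theorem act_sum [Finite A] {N : Subgroup A} (ρ : Representation k N V) {J : Type*} (T : Finset J)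
    (a : J → MonoidAlgebra k A) : act ρ (∑ j ∈ T, a j) = ∑ j ∈ T, act ρ (a j) := by
  classical
  induction T using Finset.induction_on with
  | empty => rw [Finset.sum_empty, Finset.sum_empty, act_zero]
  | insert j T hj ih => rw [Finset.sum_insert hj, Finset.sum_insert hj, act_add, ih]

theorem suppTop (a : MonoidAlgebra k A) : SuppIn (⊤ : Subgroup A) a :=
  fun _ _ => Subgroup.mem_top _

theorem act_single [Finite A] (ρ : Representation k (⊤ : Subgroup A) V) (g : A) (v : V) :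
    act ρ (single g (1 : k)) v = ρ ⟨g, Subgroup.mem_top _⟩ v := by
  classical
  have : Fintype (⊤ : Subgroup A) := Fintype.ofFinite _
  rw [act_apply, Finset.sum_eq_single ⟨g, Subgroup.mem_top _⟩]
  · rw [coeff_single, Finsupp.single_eq_same, one_smul]
  · intro x _ hx
    rw [coeff_single, Finsupp.single_eq_of_ne, zero_smul]
    intro h
    exact hx (Subtype.ext h)
  · intro h
    exact absurd (Finset.mem_univ _) h

theorem rho_mul (ρ : Representation k (⊤ : Subgroup A) V) (g h : A) (v : V) :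
    ρ ⟨g, Subgroup.mem_top _⟩ (ρ ⟨h, Subgroup.mem_top _⟩ v) =
      ρ ⟨g * h, Subgroup.mem_top _⟩ v := by
  rw [← Module.End.mul_apply, ← map_mul]
  rfl

theorem rho_one (ρ : Representation k (⊤ : Subgroup A) V) (v : V) :
    ρ ⟨1, Subgroup.mem_top _⟩ v = v := by
  have h : (⟨1, Subgroup.mem_top _⟩ : (⊤ : Subgroup A)) = 1 := rfl
  rw [h, map_one]
  rfl

theorem act_cj [Finite A] (ρ : Representation k (⊤ : Subgroup A) V) (g : A)
    (c : MonoidAlgebra k A) (v : V) :
    act ρ (cj g c) (ρ ⟨g, Subgroup.mem_top _⟩ v) = ρ ⟨g, Subgroup.mem_top _⟩ (act ρ c v) := by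
  rw [cj, act_mul ρ (suppTop _), act_mul ρ (suppTop _), Module.End.mul_apply,
    Module.End.mul_apply, act_single, act_single, rho_mul]
  congr 2
  have h : (⟨g⁻¹ * g, Subgroup.mem_top _⟩ : (⊤ : Subgroup A)) = ⟨1, Subgroup.mem_top _⟩ :=
    Subtype.ext (inv_mul_cancel g)
  rw [h, rho_one]

theorem act_under [Finite A] {S : Subgroup A} {ρ : Representation k (⊤ : Subgroup A) V}
    {σ : Representation k S W} {θ : W →ₗ[k] V}
    (hθ : ∀ (g : S) (w : W), θ (σ g w) = ρ ⟨(g : A), Subgroup.mem_top _⟩ (θ w))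
    {c : MonoidAlgebra k A} (hc : SuppIn S c) (w : W) :
    θ (act σ c w) = act ρ c (θ w) := by
  classical
  have : Fintype (⊤ : Subgroup A) := Fintype.ofFinite _
  have : Fintype S := Fintype.ofFinite _
  rw [act_apply, act_apply, map_sum]
  apply Fintype.sum_of_injective (fun g : S => (⟨(g : A), Subgroup.mem_top _⟩ : (⊤ : Subgroup A)))
  · intro g g' h
    exact Subtype.ext (congrArg (fun x : (⊤ : Subgroup A) => (x : A)) h)
  · intro x hx
    have h1 : c.coeff (x : A) = 0 := by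
      by_contra h
      exact hx ⟨⟨x, hc x h⟩, rfl⟩
    rw [h1, zero_smul]
  · intro g
    rw [map_smul, hθ]

end

theorem mul_sum_eq [Fintype A] [Fintype ι] (h : Fam Φ ε) {f : MonoidAlgebra k A}
    (hf : IsBlock (⊤ : Subgroup A) f) {i : ι} (hi : f * ε i ≠ 0) : f * ∑ j, ε j = f := by
  rw [comm_top hf.mem]
  rcases IsBlock.mul_eq hf h.sum_mem h.sum_idem with h1 | h1
  · exfalso
    apply hi
    rw [← h.sum_mul i, ← mul_assoc, comm_top hf.mem, h1, zero_mul]
  · exact h1

/-- `ε i` acts non-trivially -/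
theorem act_ne_zero [Fintype A] [Fintype ι] (h : Fam Φ ε) {f : MonoidAlgebra k A}
    (hf : IsBlock (⊤ : Subgroup A) f) {i : ι} (hi : f * ε i ≠ 0) {n : ℕ}
    {ρ : Representation k (⊤ : Subgroup A) (Fin n → k)} (hρ : Irr' ρ) (hρf : act ρ f = 1) :
    act ρ (ε i) ≠ 0 := by
  classical
  intro h0
  have hall : ∀ j, act ρ (f * ε j) = 0 := by
    intro j
    by_cases hj : f * ε j = 0
    · rw [hj, act_zero]
    · obtain ⟨g, hg⟩ := h.block_transitive hf hi hj
      rw [act_mul ρ (suppTop _), hρf, one_mul, ← hg, ← h.conj]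
      refine LinearMap.ext fun v => ?_
      have h1 := act_cj ρ g (ε i) (ρ ⟨g⁻¹, Subgroup.mem_top _⟩ v)
      rw [rho_mul, h0] at h1
      have h2 : (⟨g * g⁻¹, Subgroup.mem_top _⟩ : (⊤ : Subgroup A)) = ⟨1, Subgroup.mem_top _⟩ :=
        Subtype.ext (mul_inv_cancel g)
      rw [h2, rho_one] at h1
      rw [h1, LinearMap.zero_apply, map_zero, LinearMap.zero_apply]
  have h1 : act ρ f = 0 := by
    rw [← mul_sum_eq h hf hi, Finset.mul_sum, act_sum]
    exact Finset.sum_eq_zero fun j _ => hall j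
  have := hρ.nontriv
  obtain ⟨v, hv⟩ := exists_ne (0 : Fin n → k)
  apply hv
  have h2 : act ρ f v = 0 := by rw [h1]; rfl
  rw [hρf] at h2
  exact h2

/-- `ε i` fixes its range -/
theorem act_range [Fintype A] (h : Fam Φ ε) (i : ι) {V : Type*} [AddCommGroup V] [Module k V]
    {ρ : Representation k (⊤ : Subgroup A) V} {u : V} (hu : u ∈ LinearMap.range (act ρ (ε i))) :
    act ρ (ε i) u = u := by
  obtain ⟨v, rfl⟩ := hu
  rw [← Module.End.mul_apply, ← act_mul ρ (suppTop _), h.idem]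

/-- the range is stable -/
theorem range_stable [Fintype A] (h : Fam Φ ε) (i : ι) {V : Type*} [AddCommGroup V] [Module k V]
    {ρ : Representation k (⊤ : Subgroup A) V} (g : St Φ i) {u : V}
    (hu : u ∈ LinearMap.range (act ρ (ε i))) :
    ρ ⟨(g : A), Subgroup.mem_top _⟩ u ∈ LinearMap.range (act ρ (ε i)) := by
  obtain ⟨v, rfl⟩ := hu
  have h1 := act_cj ρ (g : A) (ε i) v
  rw [h.conj, mem_St.1 g.2] at h1
  exact ⟨_, h1⟩

/-- the restriction of `ρ` to the stabilizer -/
def res (Φ : A →* Equiv.Perm ι) (i : ι) {V : Type*} [AddCommGroup V] [Module k V]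
    (ρ : Representation k (⊤ : Subgroup A) V) : Representation k (St Φ i) V :=
  ρ.comp (Subgroup.inclusion (le_top : St Φ i ≤ ⊤))

theorem res_apply (i : ι) {V : Type*} [AddCommGroup V] [Module k V]
    (ρ : Representation k (⊤ : Subgroup A) V) (g : St Φ i) (v : V) :
    res Φ i ρ g v = ρ ⟨(g : A), Subgroup.mem_top _⟩ v := rfl

/-- the range is irreducible -/
theorem range_irr [Fintype A] [Fintype ι] (h : Fam Φ ε) {f : MonoidAlgebra k A}
    (hf : IsBlock (⊤ : Subgroup A) f) {i : ι} (hi : f * ε i ≠ 0) {n : ℕ}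
    {ρ : Representation k (⊤ : Subgroup A) (Fin n → k)} (hρ : Irr' ρ) (hρf : act ρ f = 1) :
    Irr' (subRep (res Φ i ρ) (LinearMap.range (act ρ (ε i)))
      (fun g _ hu => range_stable h i g hu)) := by
  refine ⟨?_, ?_⟩
  · rw [Submodule.nontrivial_iff_ne_bot]
    intro h0
    exact act_ne_zero h hf hi hρ hρf (LinearMap.range_eq_bot.1 h0)
  · intro W' hW'
    by_cases hW0 : W' = ⊥
    · exact Or.inl hW0
    right
    obtain ⟨U', hU'⟩ : ∃ U' : Submodule k (Fin n → k),
        U' = W'.map (LinearMap.range (act ρ (ε i))).subtype := ⟨_, rfl⟩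
    have hU'st : ∀ (g : St Φ i), ∀ u ∈ U', ρ ⟨(g : A), Subgroup.mem_top _⟩ u ∈ U' := by
      intro g u hu
      rw [hU'] at hu ⊢
      obtain ⟨w, hw, rfl⟩ := hu
      exact ⟨_, hW' g w hw, rfl⟩
    have hU'le : ∀ u ∈ U', u ∈ LinearMap.range (act ρ (ε i)) := by
      intro u hu
      rw [hU'] at hu
      obtain ⟨w, hw, rfl⟩ := hu
      exact w.2
    obtain ⟨T, hT⟩ : ∃ T : Submodule k (Fin n → k),
        T = ⨆ g : A, U'.map (ρ ⟨g, Subgroup.mem_top _⟩) := ⟨_, rfl⟩
    have hTst : ∀ g, ∀ w ∈ T, ρ g w ∈ T := by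
      intro g w hw
      have h1 : T ≤ T.comap (ρ g) := by
        conv_lhs => rw [hT]
        apply iSup_le
        intro x
        rw [Submodule.map_le_iff_le_comap]
        intro u hu
        change ρ g (ρ ⟨x, Subgroup.mem_top _⟩ u) ∈ T
        have h2 : ρ g (ρ ⟨x, Subgroup.mem_top _⟩ u) = ρ ⟨(g : A) * x, Subgroup.mem_top _⟩ u :=
          rho_mul ρ (g : A) x u
        rw [h2, hT]
        exact (le_iSup (fun y : A => U'.map (ρ ⟨y, Subgroup.mem_top _⟩)) ((g : A) * x)) ⟨u, hu, rfl⟩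
      exact h1 hw
    have hU'T : U' ≤ T := by
      intro u hu
      rw [hT]
      have h1 : u ∈ U'.map (ρ ⟨1, Subgroup.mem_top _⟩) := ⟨u, hu, rho_one ρ u⟩
      exact (le_iSup (fun y : A => U'.map (ρ ⟨y, Subgroup.mem_top _⟩)) 1) h1
    have hTtop : T = ⊤ := by
      rcases hρ.sub T hTst with h1 | h1
      · exfalso
        apply hW0
        rw [eq_bot_iff]
        intro w hw
        have h2 : (w : Fin n → k) ∈ U' := by
          rw [hU']
          exact ⟨w, hw, rfl⟩
        have h3 := hU'T h2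
        rw [h1, Submodule.mem_bot] at h3
        rw [Submodule.mem_bot]
        exact Subtype.ext h3
      · exact h1
    have hTc : T ≤ U'.comap (act ρ (ε i)) := by
      rw [hT]
      apply iSup_le
      intro g
      rw [Submodule.map_le_iff_le_comap]
      intro u hu
      change act ρ (ε i) (ρ ⟨g, Subgroup.mem_top _⟩ u) ∈ U'
      have hcj : ε i = cj g (ε (Φ g⁻¹ i)) := by
        rw [h.conj, ← Equiv.Perm.mul_apply, ← map_mul, mul_inv_cancel, map_one,
          Equiv.Perm.one_apply]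
      have hu' := act_range h i (hU'le u hu)
      have h1 : act ρ (ε i) (ρ ⟨g, Subgroup.mem_top _⟩ u) =
          ρ ⟨g, Subgroup.mem_top _⟩ (act ρ (ε (Φ g⁻¹ i)) u) := by
        conv_lhs => rw [hcj]
        exact act_cj ρ g _ u
      rw [h1]
      by_cases hg : Φ g⁻¹ i = i
      · rw [hg, hu']
        have hgS : g ∈ St Φ i := by
          have h2 : g⁻¹ ∈ St Φ i := hg
          exact (Subgroup.inv_mem_iff _).1 h2
        exact hU'st ⟨g, hgS⟩ u hu
      · have h2 : act ρ (ε (Φ g⁻¹ i)) u = 0 := by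
          rw [← hu', ← Module.End.mul_apply, ← act_mul ρ (suppTop _), h.orth _ _ hg, act_zero]
          rfl
        rw [h2, map_zero]
        exact U'.zero_mem
    rw [eq_top_iff]
    rintro ⟨w, v, hv⟩ _
    have h1 : act ρ (ε i) v ∈ U' := by
      have h2 : v ∈ T := by rw [hTtop]; exact Submodule.mem_top
      exact hTc h2
    rw [hv, hU'] at h1
    obtain ⟨w', hw', hww⟩ := h1
    have h3 : w' = ⟨w, v, hv⟩ := Subtype.ext hww
    rw [← h3]
    exact hw'

end FrDAux

open FrDAux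

theorem exists_sub [Fintype A] [Fintype ι] (h : Fam Φ ε) {f : MonoidAlgebra k A}
    (hf : IsBlock (⊤ : Subgroup A) f) {i : ι} (hi : f * ε i ≠ 0) {n : ℕ}
    {ρ : Representation k (⊤ : Subgroup A) (Fin n → k)} (hρ : Irr' ρ) (hρf : act ρ f = 1) :
    ∃ (m : ℕ) (σ : Representation k (St Φ i) (Fin m → k)) (θ : (Fin m → k) →ₗ[k] (Fin n → k)),
      Irr' σ ∧ act σ (f * ε i) = 1 ∧ Sub Φ ε i ρ σ θ := by
  have hirr := range_irr h hf hi hρ hρf
  obtain ⟨U, hU⟩ : ∃ U : Submodule k (Fin n → k), U = LinearMap.range (act ρ (ε i)) := ⟨_, rfl⟩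
  have hst : ∀ (g : St Φ i), ∀ u ∈ U, res Φ i ρ g u ∈ U := by
    intro g u hu
    rw [hU] at hu ⊢
    exact range_stable h i g hu
  have hirr' : Irr' (subRep (res Φ i ρ) U hst) := by
    subst hU
    exact hirr
  let E : U ≃ₗ[k] (Fin (Module.finrank k U) → k) := (Module.finBasis k U).equivFun
  have hθ : ∀ (g : St Φ i) (w : Fin (Module.finrank k U) → k),
      (U.subtype ∘ₗ E.symm.toLinearMap) (trRep (subRep (res Φ i ρ) U hst) E g w) =
        ρ ⟨(g : A), Subgroup.mem_top _⟩ ((U.subtype ∘ₗ E.symm.toLinearMap) w) := by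
    intro g w
    obtain ⟨u, rfl⟩ := E.surjective w
    rw [trRep_apply]
    change (E.symm (E _) : Fin n → k) = ρ _ (E.symm (E u) : Fin n → k)
    rw [LinearEquiv.symm_apply_apply, LinearEquiv.symm_apply_apply]
    rfl
  have hinj : Function.Injective (U.subtype ∘ₗ E.symm.toLinearMap) := by
    intro w w' hw
    exact E.symm.injective (Subtype.ext hw)
  have hrange : LinearMap.range (U.subtype ∘ₗ E.symm.toLinearMap) =
      LinearMap.range (act ρ (ε i)) := by
    rw [← hU]
    ext u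
    constructor
    · rintro ⟨w, rfl⟩
      exact (E.symm w).2
    · intro hu
      refine ⟨E ⟨u, hu⟩, ?_⟩
      change (E.symm (E _) : Fin n → k) = u
      rw [LinearEquiv.symm_apply_apply]
  refine ⟨_, trRep (subRep (res Φ i ρ) U hst) E, U.subtype ∘ₗ E.symm.toLinearMap,
    hirr'.trRep E, ?_, hinj, hθ, hrange⟩
  refine LinearMap.ext fun w => ?_
  apply hinj
  rw [act_under hθ ((h.mulL hf.mem hf.idem).supp i), act_mul ρ (suppTop _), hρf, one_mul,
    act_range h i (by rw [← hrange]; exact ⟨w, rfl⟩)]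
  rfl

theorem exists_super [Fintype A] [Fintype ι] (h : Fam Φ ε) {f : MonoidAlgebra k A}
    (hf : IsBlock (⊤ : Subgroup A) f) {i : ι} (hi : f * ε i ≠ 0) {m : ℕ}
    {σ : Representation k (St Φ i) (Fin m → k)} (hσ : Irr' σ) (hσf : act σ (f * ε i) = 1) :
    ∃ (n : ℕ) (ρ : Representation k (⊤ : Subgroup A) (Fin n → k))
      (θ : (Fin m → k) →ₗ[k] (Fin n → k)), Irr' ρ ∧ act ρ f = 1 ∧ Sub Φ ε i ρ σ θ := by
  obtain ⟨n, ρ, hρ, π, hπ0, hπ⟩ := exists_over (le_top : St Φ i ≤ ⊤) hσ
  have hsupp : SuppIn (St Φ i) (f * ε i) := (h.mulL hf.mem hf.idem).supp i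
  have hπact : ∀ v, π (act ρ (f * ε i) v) = π v := by
    intro v
    rw [act_over (le_top : St Φ i ≤ ⊤) π hπ hsupp, hσf]
    rfl
  have hρf : act ρ f = 1 := by
    rcases act_zero_or_one hρ hf.suppIn hf.invBy hf.idem with h1 | h1
    · exfalso
      apply hπ0
      refine LinearMap.ext fun v => ?_
      rw [← hπact v, act_mul ρ (suppTop _), h1, zero_mul]
      change π 0 = 0
      rw [map_zero]
    · exact h1
  obtain ⟨m', σ', θ', hσ', -, hsub⟩ := exists_sub h hf hi hρ hρf
  have hτ : ∀ (g : St Φ i) (w : Fin m' → k), (π ∘ₗ θ') (σ' g w) = σ g ((π ∘ₗ θ') w) := by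
    intro g w
    change π (θ' (σ' g w)) = σ g (π (θ' w))
    rw [hsub.eqv]
    exact hπ g (θ' w)
  have hτ0 : π ∘ₗ θ' ≠ 0 := by
    intro h0
    apply hπ0
    refine LinearMap.ext fun v => ?_
    rw [← hπact v, comm_top hf.mem, act_mul ρ (suppTop _), Module.End.mul_apply]
    have h1 : act ρ (ε i) (act ρ f v) ∈ LinearMap.range θ' := by
      rw [hsub.range]
      exact ⟨_, rfl⟩
    obtain ⟨w, hw⟩ := h1
    rw [← hw]
    exact LinearMap.congr_fun h0 w
  have hbij : Function.Bijective (π ∘ₗ θ') :=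
    ⟨hσ'.injective _ hτ0 (fun g v hv => by rw [hτ, hv, map_zero]),
      hσ.surjective _ hτ0 (fun g v => ⟨σ' g v, hτ g v⟩)⟩
  let τ : (Fin m' → k) ≃ₗ[k] (Fin m → k) := LinearEquiv.ofBijective (π ∘ₗ θ') hbij
  have hτ' : ∀ (g : St Φ i) (w : Fin m' → k), τ (σ' g w) = σ g (τ w) := hτ
  refine ⟨n, ρ, θ' ∘ₗ τ.symm.toLinearMap, hρ, hρf, ?_, ?_, ?_⟩
  · intro w w' hw
    exact τ.symm.injective (hsub.inj hw)
  · intro g w
    obtain ⟨u, rfl⟩ := τ.surjective w
    change θ' (τ.symm (σ g (τ u))) = ρ _ (θ' (τ.symm (τ u)))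
    rw [← hτ', LinearEquiv.symm_apply_apply, LinearEquiv.symm_apply_apply, hsub.eqv]
  · rw [← hsub.range]
    ext u
    constructor
    · rintro ⟨w, rfl⟩
      exact ⟨_, rfl⟩
    · rintro ⟨w, rfl⟩
      refine ⟨τ w, ?_⟩
      change θ' (τ.symm (τ w)) = θ' w
      rw [LinearEquiv.symm_apply_apply]

end Pool.Agent.Lib.P0c8ca5.Fr
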