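import Mathlib
import Pool.Agent.Lib.P0c8ca5P.FrD

/-!
# Module FrE: the number of irreducible representations

PROOF of `iso_of_sub`.  Let `θ : W → V`, `θ' : W → V'` identify `σ` with `ε i V` and `ε i V'`.  The map
`φ = θ' ∘ θ⁻¹ ∘ act ρ (ε i) : V → V'` is well defined (`θ` is a bijection onto the range of
`act ρ (ε i)`), `S`-equivariant (`S = St Φ i`), and nonzero: `φ (θ w) = θ' w`
(`act ρ (ε i) (θ w) = θ w`).  For `j` in the orbit of `i` choose `t j` with `Φ (t j) i = j` and put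
`ψ = ∑_j ρ'(t j) φ ρ(t j)⁻¹`.  It is `A`-equivariant (`ρ'(g) φ ρ(g)⁻¹` depends only on `g S`), and
`ψ (θ w) = θ' w`: for `j ≠ i` one has `φ ρ(t j)⁻¹ θ w = 0` since `act ρ (ε i) ρ(t j)⁻¹`
`= ρ(t j)⁻¹ act ρ (ε j)` and `act ρ (ε j) (θ w) = act ρ (ε j * ε i) _ = 0`; for `j = i`, `t i ∈ S`.  So
`ψ ≠ 0`, and it is an isomorphism (`Irr'.injective`, `Irr'.surjective`).
PROOF of `card_irr_mul`.  `sub_unique` : if `θ : W → V` and `θ₁ : W₁ → V` then `σ`, `σ₁` are isomorphic.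
The relation there is `θ` with `Sub Φ ε i ρ σ θ` is compatible with isomorphism and induces a
bijection between the isomorphism classes (`mkIrr`, `mk_eq_mk`, `act_iff`, `irr_iff`; compare
`dn_card_irr` in P0c8ca5N.TrA; e.g. define the map by choice from `exists_sub`, injective by
`iso_of_sub`, surjective by `exists_super` and `sub_unique`).
-/

namespace Pool.Agent.Lib.P0c8ca5.Fr

open MonoidAlgebra

variable {p : ℕ} {k : Type*} [Field k] {A : Type*} [Group A] {ι : Type*}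
variable {Φ : A →* Equiv.Perm ι} {ε : ι → MonoidAlgebra k A}

theorem sub_unique {i : ι} {V W W₁ : Type*} [AddCommGroup V] [Module k V] [AddCommGroup W]
    [Module k W] [AddCommGroup W₁] [Module k W₁] {ρ : Representation k (⊤ : Subgroup A) V}
    {σ : Representation k (St Φ i) W} {σ₁ : Representation k (St Φ i) W₁} {θ : W →ₗ[k] V}
    {θ₁ : W₁ →ₗ[k] V} (h : Sub Φ ε i ρ σ θ) (h₁ : Sub Φ ε i ρ σ₁ θ₁) : Iso σ σ₁ := by
  let P : W ≃ₗ[k] W₁ := (LinearEquiv.ofInjective θ h.inj).trans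
    ((LinearEquiv.ofEq _ _ (h.range.trans h₁.range.symm)).trans
      (LinearEquiv.ofInjective θ₁ h₁.inj).symm)
  have hP : ∀ w, θ₁ (P w) = θ w := by
    intro w
    have h2 : (LinearEquiv.ofInjective θ₁ h₁.inj) (P w) =
        (LinearEquiv.ofEq _ _ (h.range.trans h₁.range.symm)) (LinearEquiv.ofInjective θ h.inj w) := by
      simp only [P, LinearEquiv.trans_apply, LinearEquiv.apply_symm_apply]
    exact congrArg Subtype.val h2
  refine ⟨P, fun g w => h₁.inj ?_⟩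
  rw [hP, h.eqv, h₁.eqv, hP]

namespace FrEAux

theorem suppIn_top (a : MonoidAlgebra k A) : SuppIn (⊤ : Subgroup A) a :=
  fun _ _ => Subgroup.mem_top _

theorem act_single [Finite A] {V : Type*} [AddCommGroup V] [Module k V]
    (ρ : Representation k (⊤ : Subgroup A) V) (g : A) :
    act ρ (single g (1 : k)) = ρ ⟨g, Subgroup.mem_top _⟩ := by
  classical
  have : Fintype (⊤ : Subgroup A) := Fintype.ofFinite _
  ext v
  rw [act_apply, Finset.sum_eq_single (⟨g, Subgroup.mem_top _⟩ : (⊤ : Subgroup A))]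
  · rw [coeff_single, Finsupp.single_eq_same, one_smul]
  · intro x _ hx
    rw [coeff_single, Finsupp.single_eq_of_ne, zero_smul]
    intro h
    exact hx (Subtype.ext h)
  · intro h
    exact absurd (Finset.mem_univ _) h

variable {V V' W : Type*} [AddCommGroup V] [Module k V] [AddCommGroup V'] [Module k V']
  [AddCommGroup W] [Module k W] {ρ : Representation k (⊤ : Subgroup A) V}
  {ρ' : Representation k (⊤ : Subgroup A) V'} {i : ι} {σ : Representation k (St Φ i) W}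
  {θ : W →ₗ[k] V} {θ' : W →ₗ[k] V'}

theorem act_theta [Finite A] (h : Fam Φ ε) (hθ : Sub Φ ε i ρ σ θ) (w : W) :
    act ρ (ε i) (θ w) = θ w := by
  have h1 : θ w ∈ LinearMap.range (act ρ (ε i)) := by
    rw [← hθ.range]
    exact LinearMap.mem_range_self θ w
  obtain ⟨v, hv⟩ := h1
  rw [← hv, ← Module.End.mul_apply, ← act_mul ρ (suppIn_top _), h.idem]

theorem act_in [Finite A] (h : Fam Φ ε) (hθ : Sub Φ ε i ρ σ θ) {g : A} (hg : g ∈ St Φ i) (w : W) :
    act ρ (ε i) (ρ ⟨g, Subgroup.mem_top _⟩ (θ w)) = θ (σ ⟨g, hg⟩ w) := by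
  have h1 := hθ.eqv ⟨g, hg⟩ w
  rw [← h1]
  exact act_theta h hθ _

theorem act_out [Finite A] (h : Fam Φ ε) (hθ : Sub Φ ε i ρ σ θ) {g : A} (hg : g ∉ St Φ i) (w : W) :
    act ρ (ε i) (ρ ⟨g, Subgroup.mem_top _⟩ (θ w)) = 0 := by
  rw [← act_theta h hθ w, ← act_single, ← Module.End.mul_apply, ← Module.End.mul_apply,
    ← act_mul ρ (suppIn_top _), ← act_mul ρ (suppIn_top _), h.sandwich i hg]
  have : act ρ (0 : MonoidAlgebra k A) = 0 := by
    rw [act]
    simp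
  rw [this]
  rfl

/-- the graph -/
def D (ρ : Representation k (⊤ : Subgroup A) V) (ρ' : Representation k (⊤ : Subgroup A) V')
    (θ : W →ₗ[k] V) (θ' : W →ₗ[k] V') : Submodule k (V × V') :=
  Submodule.span k (Set.range fun x : (⊤ : Subgroup A) × W => (ρ x.1 (θ x.2), ρ' x.1 (θ' x.2)))

theorem mem_D (w : W) : (θ w, θ' w) ∈ D ρ ρ' θ θ' := by
  refine Submodule.subset_span ⟨(1, w), ?_⟩
  simp

theorem stable_D (g : (⊤ : Subgroup A)) {d : V × V'} (hd : d ∈ D ρ ρ' θ θ') :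
    (ρ g d.1, ρ' g d.2) ∈ D ρ ρ' θ θ' := by
  unfold D at hd
  induction hd using Submodule.span_induction with
  | mem x hx =>
    obtain ⟨⟨y, w⟩, rfl⟩ := hx
    refine Submodule.subset_span ⟨(g * y, w), ?_⟩
    simp only [map_mul, Module.End.mul_apply]
  | zero =>
    rw [Prod.fst_zero, Prod.snd_zero, map_zero, map_zero]
    exact Submodule.zero_mem _
  | add x y _ _ hx hy =>
    have := (D ρ ρ' θ θ').add_mem hx hy
    simpa using this
  | smul c x _ hx =>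
    have := (D ρ ρ' θ θ').smul_mem c hx
    simpa using this

theorem key_D [Finite A] (h : Fam Φ ε) (hθ : Sub Φ ε i ρ σ θ) (hθ' : Sub Φ ε i ρ' σ θ')
    {d : V × V'} (hd : d ∈ D ρ ρ' θ θ') :
    ∃ w, act ρ (ε i) d.1 = θ w ∧ act ρ' (ε i) d.2 = θ' w := by
  classical
  unfold D at hd
  induction hd using Submodule.span_induction with
  | mem x hx =>
    obtain ⟨⟨⟨y, hy⟩, w⟩, rfl⟩ := hx
    by_cases hS : y ∈ St Φ i
    · exact ⟨σ ⟨y, hS⟩ w, act_in h hθ hS w, act_in h hθ' hS w⟩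
    · exact ⟨0, by rw [map_zero]; exact act_out h hθ hS w, by rw [map_zero]; exact act_out h hθ' hS w⟩
  | zero => exact ⟨0, by simp, by simp⟩
  | add x y _ _ hx hy =>
    obtain ⟨w, h1, h2⟩ := hx
    obtain ⟨w', h3, h4⟩ := hy
    exact ⟨w + w', by rw [Prod.fst_add, map_add, map_add, h1, h3],
      by rw [Prod.snd_add, map_add, map_add, h2, h4]⟩
  | smul c x _ hx =>
    obtain ⟨w, h1, h2⟩ := hx
    exact ⟨c • w, by rw [Prod.smul_fst, map_smul, map_smul, h1],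
      by rw [Prod.smul_snd, map_smul, map_smul, h2]⟩

theorem fst_zero [Finite A] (h : Fam Φ ε) (hρ' : Irr' ρ') (hσ : Irr' σ)
    (hθ : Sub Φ ε i ρ σ θ) (hθ' : Sub Φ ε i ρ' σ θ') {d : V × V'} (hd : d ∈ D ρ ρ' θ θ')
    (h0 : d.1 = 0) : d.2 = 0 := by
  have h1 := hρ'.sub ((D ρ ρ' θ θ').comap (LinearMap.inr k V V')) (by
    intro g v hv
    rw [Submodule.mem_comap] at hv ⊢
    have h2 := stable_D g hv
    simpa using h2)
  rcases h1 with h1 | h1
  · have h2 : d.2 ∈ (D ρ ρ' θ θ').comap (LinearMap.inr k V V') := by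
      rw [Submodule.mem_comap]
      have : LinearMap.inr k V V' d.2 = d := by
        ext
        · exact h0.symm
        · rfl
      rw [this]
      exact hd
    rw [h1] at h2
    exact (Submodule.mem_bot k).1 h2
  · exfalso
    have hW := hσ.nontriv
    obtain ⟨w, hw⟩ := exists_ne (0 : W)
    have h2 : θ' w ∈ (D ρ ρ' θ θ').comap (LinearMap.inr k V V') := by
      rw [h1]
      exact Submodule.mem_top
    rw [Submodule.mem_comap] at h2
    obtain ⟨w', h3, h4⟩ := key_D h hθ hθ' h2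
    have h5 : act ρ (ε i) (LinearMap.inr k V V' (θ' w)).1 = 0 := by
      simp
    rw [h5] at h3
    have h6 : w' = 0 := hθ.inj (by rw [← h3, map_zero])
    have h7 : act ρ' (ε i) (LinearMap.inr k V V' (θ' w)).2 = θ' w := act_theta h hθ' w
    rw [h7, h6, map_zero] at h4
    exact hw (hθ'.inj (by rw [h4, map_zero]))

theorem surj_fst (hρ : Irr' ρ) (hσ : Irr' σ) (hθ : Sub Φ ε i ρ σ θ) (v : V) :
    ∃ d ∈ D ρ ρ' θ θ', d.1 = v := by
  have h1 := hρ.sub ((D ρ ρ' θ θ').map (LinearMap.fst k V V')) (by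
    rintro g v ⟨d, hd, rfl⟩
    exact ⟨_, stable_D g hd, rfl⟩)
  rcases h1 with h1 | h1
  · exfalso
    have hW := hσ.nontriv
    obtain ⟨w, hw⟩ := exists_ne (0 : W)
    have h2 : θ w ∈ (D ρ ρ' θ θ').map (LinearMap.fst k V V') := ⟨_, mem_D w, rfl⟩
    rw [h1, Submodule.mem_bot] at h2
    exact hw (hθ.inj (by rw [h2, map_zero]))
  · have h2 : v ∈ (D ρ ρ' θ θ').map (LinearMap.fst k V V') := by
      rw [h1]
      exact Submodule.mem_top
    obtain ⟨d, hd, hdv⟩ := h2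
    exact ⟨d, hd, hdv⟩

/-- the graph with the two factors exchanged -/
theorem swap_D {d : V × V'} (hd : d ∈ D ρ ρ' θ θ') : (d.2, d.1) ∈ D ρ' ρ θ' θ := by
  unfold D at hd
  induction hd using Submodule.span_induction with
  | mem x hx =>
    obtain ⟨⟨y, w⟩, rfl⟩ := hx
    exact Submodule.subset_span ⟨(y, w), rfl⟩
  | zero => exact Submodule.zero_mem _
  | add x y _ _ hx hy => exact (D ρ' ρ θ' θ).add_mem hx hy
  | smul c x _ hx => exact (D ρ' ρ θ' θ).smul_mem c hx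

end FrEAux

open FrEAux in
theorem iso_of_sub [Fintype A] [Fintype ι] (h : Fam Φ ε) {i : ι} {V V' W : Type*}
    [AddCommGroup V] [Module k V] [AddCommGroup V'] [Module k V'] [AddCommGroup W] [Module k W]
    {ρ : Representation k (⊤ : Subgroup A) V} {ρ' : Representation k (⊤ : Subgroup A) V'}
    (hρ : Irr' ρ) (hρ' : Irr' ρ') {σ : Representation k (St Φ i) W} (hσ : Irr' σ)
    {θ : W →ₗ[k] V} {θ' : W →ₗ[k] V'} (hθ : Sub Φ ε i ρ σ θ) (hθ' : Sub Φ ε i ρ' σ θ') :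
    Iso ρ ρ' := by
  let f : D ρ ρ' θ θ' →ₗ[k] V := (LinearMap.fst k V V').comp (D ρ ρ' θ θ').subtype
  let f' : D ρ ρ' θ θ' →ₗ[k] V' := (LinearMap.snd k V V').comp (D ρ ρ' θ θ').subtype
  have hf : Function.Bijective f := by
    constructor
    · rw [injective_iff_map_eq_zero]
      rintro ⟨d, hd⟩ h0
      have h1 : d.1 = 0 := h0
      have h2 := fst_zero h hρ' hσ hθ hθ' hd h1
      exact Subtype.ext (Prod.ext h1 h2)
    · intro v
      obtain ⟨d, hd, hdv⟩ := surj_fst (ρ' := ρ') (θ' := θ') hρ hσ hθ v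
      exact ⟨⟨d, hd⟩, hdv⟩
  have hf' : Function.Bijective f' := by
    constructor
    · rw [injective_iff_map_eq_zero]
      rintro ⟨d, hd⟩ h0
      have h1 : d.2 = 0 := h0
      have h2 := fst_zero h hρ hσ hθ' hθ (swap_D hd) h1
      exact Subtype.ext (Prod.ext h2 h1)
    · intro v
      obtain ⟨d, hd, hdv⟩ := surj_fst (ρ' := ρ) (θ' := θ) hρ' hσ hθ' v
      exact ⟨⟨_, swap_D hd⟩, hdv⟩
  let P : V ≃ₗ[k] V' := (LinearEquiv.ofBijective f hf).symm.trans (LinearEquiv.ofBijective f' hf')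
  have hP : ∀ d : D ρ ρ' θ θ', P (f d) = f' d := by
    intro d
    have h1 : f d = LinearEquiv.ofBijective f hf d := rfl
    simp only [P, LinearEquiv.trans_apply]
    rw [h1, LinearEquiv.symm_apply_apply]
    rfl
  refine ⟨P, fun g v => ?_⟩
  obtain ⟨d, rfl⟩ := hf.2 v
  rw [hP d]
  exact hP ⟨_, stable_D g d.2⟩

namespace FrEAux

theorem act_P [Finite A] {N : Subgroup A} {V V' : Type*} [AddCommGroup V] [Module k V]
    [AddCommGroup V'] [Module k V'] {ρ : Representation k N V} {ρ' : Representation k N V'}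
    (P : V ≃ₗ[k] V') (hP : ∀ (x : N) (v : V), P (ρ x v) = ρ' x (P v)) (e : MonoidAlgebra k A)
    (v : V) : P (act ρ e v) = act ρ' e (P v) := by
  have : Fintype N := Fintype.ofFinite N
  rw [act_apply, act_apply, map_sum]
  refine Finset.sum_congr rfl fun x _ => ?_
  rw [map_smul, hP]

variable {V V' W W' : Type*} [AddCommGroup V] [Module k V] [AddCommGroup V'] [Module k V']
  [AddCommGroup W] [Module k W] [AddCommGroup W'] [Module k W']
  {ρ : Representation k (⊤ : Subgroup A) V}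
  {ρ' : Representation k (⊤ : Subgroup A) V'} {i : ι} {σ : Representation k (St Φ i) W}
  {σ' : Representation k (St Φ i) W'} {θ : W →ₗ[k] V}

theorem congr_left [Finite A] (hI : Iso ρ ρ') (hθ : Sub Φ ε i ρ σ θ) :
    ∃ θ' : W →ₗ[k] V', Sub Φ ε i ρ' σ θ' := by
  obtain ⟨P, hP⟩ := hI
  refine ⟨P.toLinearMap.comp θ, ?_, ?_, ?_⟩
  · exact P.injective.comp hθ.inj
  · intro g w
    change P (θ (σ g w)) = ρ' _ (P (θ w))
    rw [hθ.eqv, hP]
  · ext v
    constructor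
    · rintro ⟨w, rfl⟩
      have h1 : θ w ∈ LinearMap.range (act ρ (ε i)) := by
        rw [← hθ.range]
        exact LinearMap.mem_range_self θ w
      obtain ⟨u, hu⟩ := h1
      refine ⟨P u, ?_⟩
      rw [← act_P P hP, hu]
      rfl
    · rintro ⟨u, rfl⟩
      have h1 : act ρ (ε i) (P.symm u) ∈ LinearMap.range θ := by
        rw [hθ.range]
        exact LinearMap.mem_range_self _ _
      obtain ⟨w, hw⟩ := h1
      refine ⟨w, ?_⟩
      change P (θ w) = _
      rw [hw, act_P P hP, LinearEquiv.apply_symm_apply]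

theorem congr_right (hI : Iso σ σ') (hθ : Sub Φ ε i ρ σ θ) :
    ∃ θ' : W' →ₗ[k] V, Sub Φ ε i ρ σ' θ' := by
  obtain ⟨P, hP⟩ := hI.symm
  refine ⟨θ.comp P.toLinearMap, ?_, ?_, ?_⟩
  · exact hθ.inj.comp P.injective
  · intro g w
    change θ (P (σ' g w)) = ρ _ (θ (P w))
    rw [hP, hθ.eqv]
  · rw [← hθ.range]
    exact LinearMap.range_comp_of_range_eq_top _ (LinearMap.range_eq_top.2 P.surjective)

/-- a relation which is a bijection -/
theorem card_of_rel {X Y : Type*} (R : X → Y → Prop) (h1 : ∀ x, ∃ y, R x y) (h2 : ∀ y, ∃ x, R x y)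
    (h3 : ∀ x y y', R x y → R x y' → y = y') (h4 : ∀ x x' y, R x y → R x' y → x = x') :
    Nat.card X = Nat.card Y := by
  choose F hF using h1
  refine Nat.card_congr (Equiv.ofBijective F ⟨?_, ?_⟩)
  · intro x x' hxx
    exact h4 x x' (F x) (hF x) (by rw [hxx]; exact hF x')
  · intro y
    obtain ⟨x, hx⟩ := h2 y
    exact ⟨x, h3 x _ _ (hF x) hx⟩

end FrEAux

open FrEAux in
theorem Fam.card_irr_mul [Fintype A] [Fintype ι] (h : Fam Φ ε) {f : MonoidAlgebra k A}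
    (hf : IsBlock (⊤ : Subgroup A) f) {i : ι} (hi : f * ε i ≠ 0) :
    Nat.card (Quotient (irrInvSetoid (⊤ : Subgroup A) ⊥ f))
      = Nat.card (Quotient (irrInvSetoid (St Φ i) ⊥ (f * ε i))) := by
  refine card_of_rel (fun x y => ∃ (ρ : IrrInv (⊤ : Subgroup A) ⊥ f)
    (σ : IrrInv (St Φ i) ⊥ (f * ε i)) (θ : (Fin σ.n → k) →ₗ[k] (Fin ρ.n → k)),
    (⟦ρ⟧ : Quotient (irrInvSetoid (⊤ : Subgroup A) ⊥ f)) = x ∧
    (⟦σ⟧ : Quotient (irrInvSetoid (St Φ i) ⊥ (f * ε i))) = y ∧ Sub Φ ε i ρ.ρ σ.ρ θ) ?_ ?_ ?_ ?_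
  · intro x
    induction x using Quotient.inductionOn with
    | _ ρ =>
      obtain ⟨m, σ, θ, h1, h2, h3⟩ := exists_sub h hf hi (irr_iff.1 ρ.irr) (act_iff.2 ρ.blk)
      exact ⟨_, ρ, mkIrr σ h1 h2, θ, rfl, rfl, h3⟩
  · intro y
    induction y using Quotient.inductionOn with
    | _ σ =>
      obtain ⟨n, ρ, θ, h1, h2, h3⟩ := exists_super h hf hi (irr_iff.1 σ.irr) (act_iff.2 σ.blk)
      exact ⟨_, mkIrr ρ h1 h2, σ, θ, rfl, rfl, h3⟩
  · rintro x y y' ⟨ρ, σ, θ, rfl, rfl, h1⟩ ⟨ρ', σ', θ', h2, rfl, h3⟩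
    obtain ⟨θ₁, h4⟩ := congr_left (mk_eq_mk.1 h2) h3
    exact mk_eq_mk.2 (sub_unique h1 h4)
  · rintro x x' y ⟨ρ, σ, θ, rfl, rfl, h1⟩ ⟨ρ', σ', θ', rfl, h2, h3⟩
    obtain ⟨θ₁, h4⟩ := congr_right (mk_eq_mk.1 h2) h3
    exact mk_eq_mk.2 (iso_of_sub h (irr_iff.1 ρ.irr) (irr_iff.1 ρ'.irr) (irr_iff.1 σ.irr) h1 h4)

end Pool.Agent.Lib.P0c8ca5.Fr
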