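import Mathlib
import Pool.Agent.Lib.P0c8ca5P.FrA

/-!
# Module FrB: blocks of defect zero

PROOF of `hasBr_of_mul`.  `ε i` and `f` are `P`-invariant, so (`resS_mul`) `Br_P (f * ε i)`
`= Br_P f * Br_P (ε i)` where `Br_P = resS (centralizer P)`; if `HasBr P f` fails then `Br_P f = 0`.
PROOF of `isDZ_iff_mul`.  `→`: `Fam.isBlock_mul`, and a p-subgroup `P ≤ St Φ i` with
`HasBr P (f * ε i)` has `HasBr P f`, so it is trivial.  `←`: let `P` be a p-subgroup and `x` in its
centralizer with `f.coeff x ≠ 0`.  `f = ∑ j, f * ε j` (`f * ∑ j, ε j` is `0` or `f` by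
`IsBlock.mul_eq`, not `0` because `f * (∑ j, ε j) * ε i = f * ε i`).  `P` acts on `ι`; the function
`j ↦ (f * ε j).coeff x` is `P`-invariant (`(f * ε (Φ u j)).coeff x = (cj u (f * ε j)).coeff x`
`= (f * ε j).coeff (u⁻¹ * x * u)`), so by `sum_eq_sum_fixed` (P0c8ca5.Basic) `f.coeff x` is the sum over
the `j` fixed by `P`: some `j` fixed by `P` has `(f * ε j).coeff x ≠ 0`.  By `block_transitive`
`j = Φ g i`; `P' = cg g⁻¹ P ≤ St Φ i` and `g⁻¹ * x * g` shows `HasBr P' (f * ε i)`, so `P' = ⊥`,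
`P = ⊥`.
-/

namespace Pool.Agent.Lib.P0c8ca5.Fr

open MonoidAlgebra

variable {p : ℕ} {k : Type*} [Field k] {A : Type*} [Group A] {ι : Type*}
variable {Φ : A →* Equiv.Perm ι} {ε : ι → MonoidAlgebra k A}

theorem Fam.hasBr_of_mul [Fact p.Prime] [CharP k p] [Fintype A] (h : Fam Φ ε)
    {f : MonoidAlgebra k A} (hf : f ∈ fixAlg k (⊤ : Subgroup A) ⊤) {i : ι} {P : Subgroup A}
    (hP : P ≤ St Φ i) (hpP : IsPGroup p P) (hbr : HasBr P (f * ε i)) : HasBr P f := by
  by_contra hcon
  have h1 : resS (Subgroup.centralizer (P : Set A) : Set A) f = 0 := by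
    ext x
    by_cases hx : x ∈ (Subgroup.centralizer (P : Set A) : Set A)
    · rw [coeff_resS_of_mem _ hx]
      by_contra h0
      exact hcon ⟨x, hx, h0⟩
    · rw [coeff_resS_of_notMem _ hx]
      rfl
  have h2 := resS_mul hpP ((mem_fixAlg.1 hf).2.mono (le_top : P ≤ ⊤)) ((h.inv i).mono hP)
  rw [h1, zero_mul] at h2
  obtain ⟨x, hx, hx0⟩ := hbr
  apply hx0
  rw [← coeff_resS_of_mem (f * ε i) (S := (Subgroup.centralizer (P : Set A) : Set A)) hx, h2]
  rfl

namespace FrBAux

/-- a block over `ε i` is a sum of its products with the family -/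
theorem sum_mul_eq [Fintype A] [Fintype ι] (h : Fam Φ ε)
    {f : MonoidAlgebra k A} (hf : IsBlock (⊤ : Subgroup A) f) {i : ι} (hi : f * ε i ≠ 0) :
    f * ∑ j, ε j = f := by
  rw [comm_top hf.mem]
  rcases hf.mul_eq h.sum_mem h.sum_idem with h0 | h0
  · exfalso
    apply hi
    have h1 : (∑ j, ε j) * f * ε i = f * ε i := by
      rw [← comm_top hf.mem, mul_assoc, h.sum_mul]
    rw [← h1, h0, zero_mul]
  · exact h0

end FrBAux

theorem Fam.isDZ_iff_mul [Fact p.Prime] [CharP k p] [Fintype A] [Fintype ι] (h : Fam Φ ε)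
    {f : MonoidAlgebra k A} (hf : IsBlock (⊤ : Subgroup A) f) {i : ι} (hi : f * ε i ≠ 0) :
    IsDZ p (⊤ : Subgroup A) f ↔ IsDZ p (St Φ i) (f * ε i) := by
  classical
  constructor
  · intro hdz
    exact ⟨h.isBlock_mul hf hi, fun P hP hpP hbr =>
      hdz.dz P le_top hpP (h.hasBr_of_mul hf.mem hP hpP hbr)⟩
  · intro hdz
    refine ⟨hf, fun P _ hpP hbr => ?_⟩
    obtain ⟨x, hx, hx0⟩ := hbr
    have hm := h.mulL hf.mem hf.idem
    have hsum : ∀ y : A, f.coeff y = ∑ j, (f * ε j).coeff y := by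
      intro y
      have h1 := FrBAux.sum_mul_eq h hf hi
      rw [Finset.mul_sum] at h1
      have h2 : (∑ j, f * ε j).coeff y = ∑ j, (f * ε j).coeff y := by
        rw [coeff_sum, Finsupp.finsetSum_apply]
      rw [← h2, h1]
    rw [hsum x, sum_eq_sum_fixed (p := p) hpP (Φ.comp P.subtype)
      (fun j => (f * ε j).coeff x) ?_ (Finset.univ.filter (fun j => ∀ u : P, Φ u j = j)) ?_] at hx0
    · obtain ⟨j, hj, hj0⟩ := Finset.exists_ne_zero_of_sum_ne_zero hx0
      rw [Finset.mem_filter] at hj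
      have hne : f * ε j ≠ 0 := by
        intro h0
        apply hj0
        change (f * ε j).coeff x = 0
        rw [h0]
        rfl
      obtain ⟨g, hg⟩ := h.block_transitive hf hi hne
      have hPj : P ≤ St Φ j := fun u hu => hj.2 ⟨u, hu⟩
      rw [← hg, St_apply] at hPj
      have hP' : cg g⁻¹ P ≤ St Φ i := by
        rw [cg_le_iff, inv_inv]
        exact hPj
      have hbr' : HasBr (cg g⁻¹ P) (f * ε i) := by
        refine ⟨g⁻¹ * x * g, ?_, ?_⟩
        · rw [Subgroup.mem_centralizer_iff] at hx ⊢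
          intro y hy
          have h1 : g⁻¹⁻¹ * y * g⁻¹ ∈ P := mem_cg.1 hy
          rw [inv_inv] at h1
          have h2 := hx _ h1
          calc y * (g⁻¹ * x * g) = g⁻¹ * ((g * y * g⁻¹) * x) * g := by group
            _ = g⁻¹ * (x * (g * y * g⁻¹)) * g := by rw [h2]
            _ = g⁻¹ * x * g * y := by group
        · rw [← coeff_cj g (f * ε i) x, hm.conj g i, hg]
          exact hj0
      have h1 := hdz.dz _ hP' (isPGroup_cg hpP) hbr'
      have h2 : cg g (cg g⁻¹ P) = cg g ⊥ := by rw [h1]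
      rw [cg_cg, mul_inv_cancel, cg_one] at h2
      rw [h2, eq_bot_iff]
      intro y hy
      rw [mem_cg, Subgroup.mem_bot] at hy
      rw [Subgroup.mem_bot]
      have h3 : y = g * (g⁻¹ * y * g) * g⁻¹ := by group
      rw [h3, hy]
      group
    · intro u j
      change (f * ε (Φ (u : A) j)).coeff x = (f * ε j).coeff x
      rw [← hm.conj (u : A) j, coeff_cj]
      have h1 : (u : A)⁻¹ * x * u = x := by
        have h2 := Subgroup.mem_centralizer_iff.1 hx u u.2
        rw [mul_assoc, ← h2]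
        group
      rw [h1]
    · intro j
      rw [Finset.mem_filter]
      exact ⟨fun h => h.2, fun h => ⟨Finset.mem_univ _, h⟩⟩

end Pool.Agent.Lib.P0c8ca5.Fr
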