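import Mathlib
import Pool.Agent.Lib.P0c8ca5P.FrB

/-!
# Module FrC: counting blocks of defect zero

PROOF.  Let `F` be the finite set (`finite_isBlock`) of the `f` with `IsDZ p ⊤ f`, `f * ∑ ε = f`.
For every `i` the map `f ↦ f * ε i` is a bijection from `{f ∈ F | f * ε i ≠ 0}` onto
`{g | IsDZ p (St Φ i) g ∧ g * ε i = g}` (`isDZ_iff_mul`, `exists_block_mul`, `block_mul_inj`; if
`f * ε i ≠ 0` for a block `f` then `f * ∑ ε = f` by `IsBlock.mul_eq`, as
`f * (∑ ε) * ε i = f * ε i`).  So the right side is `∑_{f ∈ F} ∑_{i : f * ε i ≠ 0} |St Φ i|`, and for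
every `f ∈ F` the set of the `i` with `f * ε i ≠ 0` is one orbit (`exists_mul_ne`,
`block_transitive`, `ne_zero_apply`), so the inner sum is `|A|`: `sum_orbit` (P0c8ca5.LHS) for the
action of `A` on `ι` through `Φ` (`MulAction.compHom`, or copy the proof).
-/

namespace Pool.Agent.Lib.P0c8ca5.Fr

open MonoidAlgebra

variable {p : ℕ} {k : Type*} [Field k] {A : Type*} [Group A] {ι : Type*}
variable {Φ : A →* Equiv.Perm ι} {ε : ι → MonoidAlgebra k A}

namespace FrCAux

/-- the orbit of the indices -/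
theorem sum_St [Fintype A] [Fintype ι] (Φ : A →* Equiv.Perm ι) (i₀ : ι) (S : Finset ι)
    (hS : ∀ i, i ∈ S ↔ ∃ g : A, Φ g i₀ = i) : ∑ i ∈ S, Nat.card (St Φ i) = Nat.card A := by
  classical
  letI : MulAction A ι := MulAction.compHom ι Φ
  have h1 := sum_orbit (A := A) (X := ι) ⊤ i₀ S (fun i => by
    rw [hS]
    constructor
    · rintro ⟨g, hg⟩
      exact ⟨g, Subgroup.mem_top g, hg.symm⟩
    · rintro ⟨g, -, hg⟩
      exact ⟨g, hg.symm⟩)
  rw [Subgroup.card_top] at h1
  rw [← h1]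
  refine Finset.sum_congr rfl fun i _ => ?_
  have h2 : (⊤ ⊓ MulAction.stabilizer A i : Subgroup A) = St Φ i := by
    rw [top_inf_eq]
    ext g
    exact Iff.rfl
  rw [h2]

end FrCAux

open FrCAux in
theorem Fam.card_dz [Fact p.Prime] [CharP k p] [IsAlgClosed k] [Fintype A] [Fintype ι]
    (h : Fam Φ ε) :
    Nat.card A * Nat.card {f : MonoidAlgebra k A | IsDZ p (⊤ : Subgroup A) f ∧ f * ∑ i, ε i = f}
      = ∑ i, Nat.card (St Φ i)
        * Nat.card {g : MonoidAlgebra k A | IsDZ p (St Φ i) g ∧ g * ε i = g} := by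
  classical
  have hfin : {f : MonoidAlgebra k A | IsDZ p (⊤ : Subgroup A) f ∧ f * ∑ i, ε i = f}.Finite :=
    (finite_isBlock (⊤ : Subgroup A)).subset (fun f hf => hf.1.blk)
  set F := hfin.toFinset with hF
  have hmemF : ∀ f, f ∈ F ↔ IsDZ p (⊤ : Subgroup A) f ∧ f * ∑ i, ε i = f := fun f => by
    rw [hF, Set.Finite.mem_toFinset]; rfl
  have hcF : Nat.card {f : MonoidAlgebra k A | IsDZ p (⊤ : Subgroup A) f ∧ f * ∑ i, ε i = f} =
      F.card := by
    rw [Nat.card_coe_set_eq, Set.ncard_eq_toFinset_card _ hfin]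
  have hcG : ∀ i, Nat.card {g : MonoidAlgebra k A | IsDZ p (St Φ i) g ∧ g * ε i = g} =
      (F.filter (fun f => f * ε i ≠ 0)).card := by
    intro i
    have h1 : {g : MonoidAlgebra k A | IsDZ p (St Φ i) g ∧ g * ε i = g} =
        (fun f => f * ε i) '' (F.filter (fun f => f * ε i ≠ 0) : Set (MonoidAlgebra k A)) := by
      ext g
      constructor
      · rintro ⟨hg, hgi⟩
        obtain ⟨f, hf, hfg⟩ := h.exists_block_mul hg.blk hgi
        have hne : f * ε i ≠ 0 := by rw [hfg]; exact hg.blk.ne_zero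
        refine ⟨f, ?_, hfg⟩
        rw [Finset.mem_coe, Finset.mem_filter, hmemF]
        refine ⟨⟨(h.isDZ_iff_mul hf hne).2 (by rw [hfg]; exact hg), ?_⟩, hne⟩
        have h2 := hf.mul_eq h.sum_mem h.sum_idem
        rw [← comm_top hf.mem] at h2
        rcases h2 with h2 | h2
        · exfalso
          apply hne
          rw [← h.sum_mul i, ← mul_assoc, h2, zero_mul]
        · exact h2
      · rintro ⟨f, hf, rfl⟩
        rw [Finset.mem_coe, Finset.mem_filter, hmemF] at hf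
        obtain ⟨⟨hf1, -⟩, hne⟩ := hf
        exact ⟨(h.isDZ_iff_mul hf1.blk hne).1 hf1, by
          show f * ε i * ε i = f * ε i
          rw [mul_assoc, h.idem]⟩
    rw [h1, Nat.card_coe_set_eq, Set.ncard_image_of_injOn, Set.ncard_coe_finset]
    intro f hf f' hf' heq
    rw [Finset.mem_coe, Finset.mem_filter, hmemF] at hf hf'
    exact h.block_mul_inj hf.1.1.blk hf'.1.1.blk hf.2 heq
  rw [hcF]
  simp_rw [hcG]
  have h3 : ∀ i, (F.filter (fun f => f * ε i ≠ 0)).card =
      ∑ f ∈ F, if f * ε i ≠ 0 then 1 else 0 := fun i => Finset.card_filter _ _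
  simp_rw [h3, Finset.mul_sum]
  rw [Finset.sum_comm]
  have h4 : ∀ f ∈ F, (∑ i, Nat.card (St Φ i) * if f * ε i ≠ 0 then 1 else 0) = Nat.card A := by
    intro f hf
    rw [hmemF] at hf
    obtain ⟨i₀, hi₀⟩ := Fam.exists_mul_ne hf.1.blk.ne_zero hf.2
    rw [← sum_St Φ i₀ (Finset.univ.filter (fun i => f * ε i ≠ 0)) (fun i => ?_)]
    · rw [Finset.sum_filter]
      refine Finset.sum_congr rfl fun i _ => ?_
      split_ifs <;> simp
    · rw [Finset.mem_filter]
      constructor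
      · rintro ⟨-, hi⟩
        exact h.block_transitive hf.1.blk hi₀ hi
      · rintro ⟨g, rfl⟩
        exact ⟨Finset.mem_univ _, h.ne_zero_apply hf.1.blk.mem hi₀ g⟩
  rw [Finset.sum_congr rfl h4, Finset.sum_const, smul_eq_mul, mul_comm]

end Pool.Agent.Lib.P0c8ca5.Fr
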