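import Mathlib
import Pool.Agent.Lib.P0c8ca5P.Fam
import Pool.Agent.Lib.P0c8ca5.Official

/-!
# Module FrF: the projection of a family to `N_A(Q)/Q`

`N_A(Q)/Q` acts on the set of the fixed points of `Q` in `ι`.
PROOFS.
* `proj_cj`: both coefficients at `qm Q m _` are `∑_{x ∈ m Q} a.coeff (n⁻¹ * x * n)`
  (`coeff_proj`, `coeff_cj`; compare `proj_invBy'` in P0c8ca5.Official).
* `St_PhiQ`: `w = qm Q n hn` fixes `i` iff `Φ n i = i`, i.e. `n ∈ St Φ i`, i.e. (`Q ≤ St Φ i`)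
  `w ∈ sec (St Φ i) Q` (`qm_mem_sec_iff`).
* `Fam.proj_fam`: `ε i` is `Q`-invariant for the fixed points `i` (`Fam.inv`), so `idem`, `orth`
  follow from `proj_mul`; `conj` from `proj_cj`; `supp` from `proj_suppIn`.
* `Fam.proj_sum`: coefficient at `qm Q n hn`: the function `i ↦ (proj Q (ε i)).coeff (qm Q n hn)` on `ι`
  is `Q`-invariant, `proj Q (ε (Φ q i)) = proj Q (cj q (ε i)) = cj (qm Q q _) (proj Q (ε i))` and
  `qm Q q _ = 1`; so `sum_eq_sum_fixed` (P0c8ca5.Basic) applies.  (`proj Q` is additive: `proj_add`,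
  `proj_sum'` in WSumAux.)
-/

namespace Pool.Agent.Lib.P0c8ca5.Fr

open MonoidAlgebra

variable {p : ℕ} {k : Type*} [Field k] {A : Type*} [Group A] {ι : Type*}

/-- the fixed points of `Q` -/
abbrev FixQ (Φ : A →* Equiv.Perm ι) (Q : Subgroup A) : Type _ := {i : ι // ∀ q ∈ Q, Φ q i = i}

theorem fix_apply {Φ : A →* Equiv.Perm ι} {Q : Subgroup A} {n : A}
    (hn : n ∈ Subgroup.normalizer (Q : Set A)) {i : ι} (hi : ∀ q ∈ Q, Φ q i = i) :
    ∀ q ∈ Q, Φ q (Φ n i) = Φ n i := by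
  intro q hq
  have h1 : n⁻¹ * q * n ∈ Q := by
    have h2 := (Subgroup.mem_normalizer_iff.1
      ((Subgroup.normalizer (Q : Set A)).inv_mem hn) q).1 hq
    rwa [inv_inv] at h2
  rw [← Equiv.Perm.mul_apply, ← map_mul]
  have h3 : q * n = n * (n⁻¹ * q * n) := by group
  rw [h3, map_mul, Equiv.Perm.mul_apply, hi _ h1]

/-- the action of `N_A(Q)` on the fixed points of `Q` -/
def PhiN (Φ : A →* Equiv.Perm ι) (Q : Subgroup A) :
    ↥(Subgroup.normalizer (Q : Set A)) →* Equiv.Perm (FixQ Φ Q) where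
  toFun n :=
    { toFun := fun i => ⟨Φ n i, fix_apply n.2 i.2⟩
      invFun := fun i => ⟨Φ (n : A)⁻¹ i,
        fix_apply ((Subgroup.normalizer (Q : Set A)).inv_mem n.2) i.2⟩
      left_inv := fun i => Subtype.ext (by
        change Φ (n : A)⁻¹ (Φ n i) = i
        rw [← Equiv.Perm.mul_apply, ← map_mul, inv_mul_cancel, map_one, Equiv.Perm.one_apply])
      right_inv := fun i => Subtype.ext (by
        change Φ (n : A) (Φ (n : A)⁻¹ i) = i
        rw [← Equiv.Perm.mul_apply, ← map_mul, mul_inv_cancel, map_one, Equiv.Perm.one_apply]) }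
  map_one' := by
    apply Equiv.ext
    intro i
    apply Subtype.ext
    change Φ ((1 : ↥(Subgroup.normalizer (Q : Set A))) : A) i = i
    rw [Subgroup.coe_one, map_one, Equiv.Perm.one_apply]
  map_mul' := by
    intro a b
    apply Equiv.ext
    intro i
    apply Subtype.ext
    change Φ ((a * b : ↥(Subgroup.normalizer (Q : Set A))) : A) i = Φ (a : A) (Φ (b : A) i)
    rw [Subgroup.coe_mul, map_mul, Equiv.Perm.mul_apply]

/-- the action of `N_A(Q)/Q` on the fixed points of `Q` -/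
def PhiQ (Φ : A →* Equiv.Perm ι) (Q : Subgroup A) : NQ Q →* Equiv.Perm (FixQ Φ Q) :=
  QuotientGroup.lift _ (PhiN Φ Q) (by
    intro n hn
    apply Equiv.ext
    intro i
    apply Subtype.ext
    exact i.2 n hn)

theorem PhiQ_apply (Φ : A →* Equiv.Perm ι) (Q : Subgroup A) {n : A}
    (hn : n ∈ Subgroup.normalizer (Q : Set A)) (i : FixQ Φ Q) :
    PhiQ Φ Q (qm Q n hn) i = ⟨Φ n i, fix_apply hn i.2⟩ := rfl

variable {Φ : A →* Equiv.Perm ι} {ε : ι → MonoidAlgebra k A}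

theorem proj_cj [Fintype A] {Q : Subgroup A} (a : MonoidAlgebra k A) {n : A}
    (hn : n ∈ Subgroup.normalizer (Q : Set A)) :
    proj Q (cj n a) = cj (qm Q n hn) (proj Q a) := by
  classical
  ext w
  obtain ⟨m, hm, rfl⟩ := qm_surj w
  have hn' := Subgroup.mem_normalizer_iff.1 hn
  have hm2 : n⁻¹ * m * n ∈ Subgroup.normalizer (Q : Set A) :=
    (Subgroup.normalizer (Q : Set A)).mul_mem
      ((Subgroup.normalizer (Q : Set A)).mul_mem
        ((Subgroup.normalizer (Q : Set A)).inv_mem hn) hm) hn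
  have e1 : (qm Q n hn)⁻¹ * qm Q m hm * qm Q n hn = qm Q (n⁻¹ * m * n) hm2 := rfl
  rw [coeff_cj, e1, coeff_proj, coeff_proj]
  refine (Fintype.sum_equiv (MulAut.conj n).toEquiv _ _ (fun y => ?_)).symm
  change (if (n⁻¹ * m * n)⁻¹ * y ∈ Q then a.coeff y else 0)
    = if m⁻¹ * (n * y * n⁻¹) ∈ Q then (cj n a).coeff (n * y * n⁻¹) else 0
  have e2 : m⁻¹ * (n * y * n⁻¹) = n * ((n⁻¹ * m * n)⁻¹ * y) * n⁻¹ := by group
  have e3 : n⁻¹ * (n * y * n⁻¹) * n = y := by group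
  rw [e2, coeff_cj, e3]
  by_cases h : (n⁻¹ * m * n)⁻¹ * y ∈ Q
  · rw [if_pos h, if_pos ((hn' _).1 h)]
  · rw [if_neg h, if_neg (fun h' => h ((hn' _).2 h'))]

theorem St_PhiQ {Q : Subgroup A} (i : FixQ Φ Q) : St (PhiQ Φ Q) i = sec (St Φ i.1) Q := by
  ext w
  obtain ⟨n, hn, rfl⟩ := qm_surj w
  have hQ : Q ≤ St Φ i.1 := fun q hq => i.2 q hq
  rw [qm_mem_sec_iff hQ, mem_St, mem_St, PhiQ_apply, Subtype.ext_iff]

theorem Fam.proj_fam [Fact p.Prime] [CharP k p] [Fintype A] (h : Fam Φ ε) {Q : Subgroup A}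
    (hQ : IsPGroup p Q) : Fam (PhiQ Φ Q) (fun i => proj Q (ε i.1)) := by
  have hinv : ∀ i : FixQ Φ Q, InvBy Q (ε i.1) := fun i g hg => h.inv i.1 g (i.2 g hg)
  refine ⟨fun i => ?_, fun i j hij => ?_, fun g i => ?_, fun i => ?_⟩
  · rw [← proj_mul hQ (hinv i) (hinv i), h.idem]
  · rw [← proj_mul hQ (hinv i) (hinv j), h.orth i.1 j.1 (fun h' => hij (Subtype.ext h')),
      WSumAux.proj_zero']
  · obtain ⟨n, hn, rfl⟩ := qm_surj g
    rw [← proj_cj, h.conj, PhiQ_apply]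
  · rw [St_PhiQ]
    exact proj_suppIn (h.supp i.1) Q

open Classical in
theorem Fam.proj_sum [Fact p.Prime] [CharP k p] [Fintype A] [Fintype ι] (h : Fam Φ ε)
    {Q : Subgroup A} (hQ : IsPGroup p Q) :
    proj Q (∑ i, ε i) = ∑ i : FixQ Φ Q, proj Q (ε i.1) := by
  rw [WSumAux.proj_sum']
  ext w
  obtain ⟨n, hn, rfl⟩ := qm_surj w
  rw [coeff_sum, coeff_sum, Finsupp.finsetSum_apply, Finsupp.finsetSum_apply]
  rw [sum_eq_sum_fixed hQ (Φ.comp Q.subtype) (fun i => (proj Q (ε i)).coeff (qm Q n hn)) ?_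
    (Finset.univ.filter (fun i => ∀ q ∈ Q, Φ q i = i)) ?_]
  · refine Finset.sum_subtype _ (fun i => ?_) _
    rw [Finset.mem_filter]
    exact ⟨fun h' => h'.2, fun h' => ⟨Finset.mem_univ _, h'⟩⟩
  · intro q i
    change (proj Q (ε (Φ (q : A) i))).coeff (qm Q n hn) = _
    have hqn : (q : A) ∈ Subgroup.normalizer (Q : Set A) := Subgroup.le_normalizer q.2
    have h1 : qm Q (q : A) hqn = 1 := qm_eq_one_iff.2 q.2
    rw [← h.conj, proj_cj _ hqn, h1, cj_one_left]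
  · intro i
    rw [Finset.mem_filter]
    exact ⟨fun h' g => h'.2 g g.2, fun h' => ⟨Finset.mem_univ _, fun q hq => h' ⟨q, hq⟩⟩⟩

end Pool.Agent.Lib.P0c8ca5.Fr
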