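import Mathlib
import Pool.Agent.Lib.P0c8ca5P.FrC
import Pool.Agent.Lib.P0c8ca5P.FrF

/-!
# Module FrG: the weighted number of weights

PROOF of `Ws_cg`.  `Q ↦ cg g Q` is a bijection from the p-subgroups of `K` onto those of `cg g K`; the
terms agree: `conj_card` (P0c8ca5.Conj), `cg_inf`, `cg_normalizer`, `card_cg`.
PROOF of `Ws_sum`.  For a p-subgroup `Q` of `A`, `|Q| * |NQ Q| = |N_A(Q)|` and
`|Q| * |sec (St Φ i) Q| = |St Φ i ⊓ N_A(Q)|` if `Q ≤ St Φ i` (compare `card_sec` in the library, or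
`Subgroup.card_mul_index`).  Apply `Fam.card_dz` to the family `Fam.proj_fam` of `NQ Q` (ambient
group `NQ Q`, `sec ⊤ Q = ⊤`) and multiply by `|Q|`; with `proj_sum` and `St_PhiQ`:
`|⊤ ⊓ N(Q)| * w(⊤, Q, ∑ ε) = ∑_{i : Q ≤ St Φ i} |St Φ i ⊓ N(Q)| * w(St Φ i, Q, ε i)`.
Sum over all p-subgroups `Q` of `A` and exchange the two sums (`i` is a fixed point of `Q` iff
`Q ≤ St Φ i`).
-/

namespace Pool.Agent.Lib.P0c8ca5.Fr

open MonoidAlgebra

variable {p : ℕ} {k : Type*} [Field k] {A : Type*} [Group A] {ι : Type*}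
variable {Φ : A →* Equiv.Perm ι} {ε : ι → MonoidAlgebra k A}

theorem Ws_cg [Fintype A] {K : Subgroup A} {c : MonoidAlgebra k A} (hc : SuppIn K c) (g : A) :
    Ws p (cg g K) (cj g c) = Ws p K c := by
  classical
  unfold Ws
  symm
  refine Finset.sum_bij' (fun Q _ => cg g Q) (fun Q _ => cg g⁻¹ Q) ?_ ?_ ?_ ?_ ?_
  · intro Q hQ
    rw [Finset.mem_filter] at hQ ⊢
    exact ⟨Finset.mem_univ _, cg_le_cg hQ.2.1, isPGroup_cg hQ.2.2⟩
  · intro Q hQ
    rw [Finset.mem_filter] at hQ ⊢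
    refine ⟨Finset.mem_univ _, ?_, isPGroup_cg hQ.2.2⟩
    have h1 := cg_le_cg (g := g⁻¹) hQ.2.1
    rwa [cg_cg, inv_mul_cancel, cg_one] at h1
  · intro Q _
    rw [cg_cg, inv_mul_cancel, cg_one]
  · intro Q _
    rw [cg_cg, mul_inv_cancel, cg_one]
  · intro Q _
    rw [← conj_card g hc, ← cg_normalizer, ← cg_inf, card_cg]

theorem Fam.Ws_sum [Fact p.Prime] [CharP k p] [IsAlgClosed k] [Fintype A] [Fintype ι]
    (h : Fam Φ ε) : Ws p (⊤ : Subgroup A) (∑ i, ε i) = ∑ i, Ws p (St Φ i) (ε i) := by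
  classical
  have key : ∀ Q : Subgroup A, IsPGroup p Q →
      Nat.card ↥((⊤ : Subgroup A) ⊓ Subgroup.normalizer (Q : Set A))
        * Nat.card {f : MonoidAlgebra k (NQ Q) | IsDZ p (sec (⊤ : Subgroup A) Q) f
          ∧ f * proj Q (∑ i, ε i) = f}
      = ∑ i ∈ Finset.univ.filter (fun i => ∀ q ∈ Q, Φ q i = i),
        Nat.card ↥(St Φ i ⊓ Subgroup.normalizer (Q : Set A))
        * Nat.card {f : MonoidAlgebra k (NQ Q) | IsDZ p (sec (St Φ i) Q) f
          ∧ f * proj Q (ε i) = f} := by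
    intro Q hQ
    have : Fintype (NQ Q) := Fintype.ofFinite _
    have h1 := Fam.card_dz (p := p) (k := k) (h.proj_fam hQ)
    have htop : sec (⊤ : Subgroup A) Q = ⊤ := by
      rw [eq_top_iff]
      intro w _
      obtain ⟨x, hx, rfl⟩ := qm_surj w
      exact qm_mem_sec hx (Subgroup.mem_top x)
    rw [← card_sec (le_top : Q ≤ ⊤), htop, Subgroup.card_top, h.proj_sum hQ,
      mul_right_comm, h1, Finset.sum_mul,
      Finset.sum_subtype (p := fun i => ∀ q ∈ Q, Φ q i = i) _ (by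
        intro i
        rw [Finset.mem_filter]
        exact ⟨fun h => h.2, fun h => ⟨Finset.mem_univ _, h⟩⟩)]
    refine Finset.sum_congr rfl (fun i _ => ?_)
    have hle : Q ≤ St Φ i.1 := fun q hq => i.2 q hq
    rw [St_PhiQ, ← card_sec hle, mul_right_comm]
  unfold Ws
  rw [Finset.sum_congr rfl (fun Q hQ => key Q (Finset.mem_filter.1 hQ).2.2)]
  apply Finset.sum_comm'
  intro Q i
  rw [Finset.mem_filter, Finset.mem_filter, Finset.mem_filter]
  constructor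
  · rintro ⟨⟨_, _, h1⟩, _, h2⟩
    exact ⟨⟨Finset.mem_univ _, h2, h1⟩, Finset.mem_univ _⟩
  · rintro ⟨⟨_, h1, h2⟩, _⟩
    exact ⟨⟨Finset.mem_univ _, le_top, h2⟩, Finset.mem_univ _, h1⟩

end Pool.Agent.Lib.P0c8ca5.Fr
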