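import Mathlib
import Pool.Agent.Lib.P0c8ca5P.FrE
import Pool.Agent.Lib.P0c8ca5P.FrG

/-!
# Module FrH: Fong-Reynolds for the blockwise weight conjecture

`N` is normal in `A`, `c` a block of `N`, `b` a block of `A` over `c`, `Y` the stabilizer of `c`.
PROOF.  `ι = {x | ∃ g, x = cj g c}` (finite: `finite_isBlock`, all its members are blocks of `N`),
`Φ g x = cj g x`, `ε x = x`: a family (`orth`: `IsBlock.eq_or_mul_eq_zero`; `supp`: `N` fixes every
`x`).  `ε' x = b * x` is a family as well (`Fam.mulL`).  `St Φ ⟨c, _⟩ = Y`.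
* `isBlock_stab`: `Fam.isBlock_mul` for the family `ε`, `f = b`.
* `hasBr_stab`: `Fam.hasBr_of_mul`.
* `navarro_stab`: `∑ x, b * x = b * ∑ x = b` (`∑ x` is a central idempotent and
  `b * (∑ x) * c = b * c ≠ 0`, `IsBlock.mul_eq`).  `Fam.Ws_sum` for `ε'` and `Ws_cg`: all terms are
  equal (every `x` is `cj g c`; `St_apply`), so `Ws p ⊤ b = |ι| * Ws p Y (b * c)`, and `|A| = |ι| |Y|`
  (`sum_orbit` in P0c8ca5.LHS or `MulAction.card_orbit_mul_card_stabilizer_eq_card_group`).
  `Fam.card_irr_mul`: `l(b) = l(b * c)`.  By `card_irr_eq` and `sum_DZ_eq` (for both groups; take a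
  transversal from `exists_transversal` for `Y`), `NavarroEq p Y Y (b * c)` says
  `|Y| * l(b * c) = Ws p Y (b * c)` and `NavarroEq p ⊤ ⊤ b` says `|A| * l(b) = Ws p ⊤ b`.
-/

namespace Pool.Agent.Lib.P0c8ca5.Fr

open MonoidAlgebra

variable {p : ℕ} {k : Type*} [Field k] {A : Type*} [Group A]

namespace FrHAux

/-- the conjugates of `c` -/
abbrev Cj (c : MonoidAlgebra k A) : Type _ := {x : MonoidAlgebra k A // ∃ g : A, x = cj g c}

/-- the action by conjugation -/
noncomputable def PhiC (c : MonoidAlgebra k A) : A →* Equiv.Perm (Cj c) where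
  toFun g :=
    { toFun := fun x => ⟨cj g x.1, by
        obtain ⟨h, hh⟩ := x.2
        exact ⟨g * h, by rw [hh, cj_cj]⟩⟩
      invFun := fun x => ⟨cj g⁻¹ x.1, by
        obtain ⟨h, hh⟩ := x.2
        exact ⟨g⁻¹ * h, by rw [hh, cj_cj]⟩⟩
      left_inv := fun x => Subtype.ext (by
        change cj g⁻¹ (cj g x.1) = x.1
        rw [cj_cj, inv_mul_cancel, cj_one_left])
      right_inv := fun x => Subtype.ext (by
        change cj g (cj g⁻¹ x.1) = x.1
        rw [cj_cj, mul_inv_cancel, cj_one_left]) }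
  map_one' := by
    apply Equiv.ext
    intro x
    apply Subtype.ext
    change cj 1 x.1 = x.1
    rw [cj_one_left]
  map_mul' := by
    intro a b
    apply Equiv.ext
    intro x
    apply Subtype.ext
    change cj (a * b) x.1 = cj a (cj b x.1)
    rw [cj_cj]

/-- the base point -/
def base (c : MonoidAlgebra k A) : Cj c := ⟨c, 1, (cj_one_left c).symm⟩

theorem PhiC_apply (c : MonoidAlgebra k A) (g : A) (x : Cj c) : (PhiC c g x).1 = cj g x.1 := rfl

theorem exists_base {c : MonoidAlgebra k A} (x : Cj c) : ∃ g : A, PhiC c g (base c) = x := by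
  obtain ⟨g, hg⟩ := x.2
  exact ⟨g, Subtype.ext hg.symm⟩

theorem blk {N : Subgroup A} (hN : N.Normal) {c : MonoidAlgebra k A} (hc : IsBlock N c)
    (x : Cj c) : IsBlock N x.1 := by
  obtain ⟨g, hg⟩ := x.2
  have h1 := isBlock_cg hc g
  have h2 : cg g N = N := cg_of_mem_normalizer (by
    rw [Subgroup.normalizer_eq_top_iff.2 hN]
    exact Subgroup.mem_top g)
  rw [h2, ← hg] at h1
  exact h1

theorem fin [Finite A] {N : Subgroup A} (hN : N.Normal) {c : MonoidAlgebra k A} (hc : IsBlock N c) :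
    Finite (Cj c) := by
  have : Finite {e : MonoidAlgebra k A | IsBlock N e} := (finite_isBlock N).to_subtype
  exact Finite.of_injective (fun x : Cj c => (⟨x.1, blk hN hc x⟩ : {e : MonoidAlgebra k A | IsBlock N e}))
    (fun x y h => Subtype.ext (congrArg (fun z => z.1) h))

theorem fam {N : Subgroup A} (hN : N.Normal) {c : MonoidAlgebra k A} (hc : IsBlock N c) :
    Fam (PhiC c) (fun x => x.1) where
  idem x := (blk hN hc x).idem
  orth x y hxy := by
    rcases (blk hN hc x).eq_or_mul_eq_zero (blk hN hc y) with h | h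
    · exact absurd (Subtype.ext h) hxy
    · exact h
  conj g x := rfl
  supp x := by
    refine (blk hN hc x).suppIn.mono ?_
    intro n hn
    rw [mem_St]
    apply Subtype.ext
    rw [PhiC_apply]
    exact invBy_iff_cj.1 (blk hN hc x).invBy n hn

theorem St_base {Y : Subgroup A} {c : MonoidAlgebra k A} (hY : ∀ g, g ∈ Y ↔ cj g c = c) :
    St (PhiC c) (base c) = Y := by
  ext g
  rw [mem_St, hY]
  constructor
  · intro h
    exact congrArg Subtype.val h
  · intro h
    exact Subtype.ext h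

end FrHAux

open FrHAux

theorem isBlock_stab [Fact p.Prime] [CharP k p] [IsAlgClosed k] [Fintype A] {N Y : Subgroup A}
    (hN : N.Normal) {b c : MonoidAlgebra k A} (hb : IsBlock (⊤ : Subgroup A) b)
    (hc : IsBlock N c) (hbc : b * c ≠ 0) (hY : ∀ g, g ∈ Y ↔ cj g c = c) :
    IsBlock Y (b * c) := by
  have := fin hN hc
  have : Fintype (Cj c) := Fintype.ofFinite _
  have h1 := (fam hN hc).isBlock_mul hb (i := base c) hbc
  rw [St_base hY] at h1
  exact h1

theorem hasBr_stab [Fact p.Prime] [CharP k p] [Fintype A] {N Y : Subgroup A}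
    (hN : N.Normal) {b c : MonoidAlgebra k A} (hb : IsBlock (⊤ : Subgroup A) b)
    (hc : IsBlock N c) (hY : ∀ g, g ∈ Y ↔ cj g c = c) {P : Subgroup A} (hP : P ≤ Y)
    (hpP : IsPGroup p P) (hbr : HasBr P (b * c)) : HasBr P b := by
  have h1 := (fam hN hc).hasBr_of_mul (p := p) hb.mem (i := base c) (P := P)
    (by rw [St_base hY]; exact hP) hpP hbr
  exact h1

theorem navarro_stab [Fact p.Prime] [CharP k p] [IsAlgClosed k] [Fintype A] {N Y : Subgroup A}
    (hN : N.Normal) {b c : MonoidAlgebra k A} (hb : IsBlock (⊤ : Subgroup A) b)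
    (hc : IsBlock N c) (hbc : b * c ≠ 0) (hY : ∀ g, g ∈ Y ↔ cj g c = c)
    (h : NavarroEq p Y Y (b * c)) : NavarroEq p ⊤ ⊤ b := by
  classical
  have := fin hN hc
  have : Fintype (Cj c) := Fintype.ofFinite _
  have hfam := fam hN hc
  have hblk : IsBlock Y (b * c) := isBlock_stab (p := p) hN hb hc hbc hY
  have hfam' : Fam (PhiC c) (fun x : Cj c => b * x.1) := hfam.mulL hb.mem hb.idem
  -- the sum of the family
  have hsum : ∑ x : Cj c, b * x.1 = b := by
    rw [← Finset.mul_sum]
    have h2 := hb.mul_eq hfam.sum_mem hfam.sum_idem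
    rw [← comm_top hb.mem] at h2
    rcases h2 with h2 | h2
    · exfalso
      apply hbc
      have h3 := hfam.sum_mul (base c)
      change (∑ j : Cj c, j.1) * c = c at h3
      rw [← h3, ← mul_assoc, h2, zero_mul]
    · exact h2
  -- all terms are equal
  have hterm : ∀ x : Cj c, Ws p (St (PhiC c) x) (b * x.1) = Ws p Y (b * c) := by
    intro x
    obtain ⟨g, rfl⟩ := exists_base x
    rw [St_apply, St_base hY, PhiC_apply]
    change Ws p (cg g Y) (b * cj g c) = _
    have h2 : b * cj g c = cj g (b * c) := by rw [cj_mul, cj_top hb.mem]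
    rw [h2, Ws_cg hblk.suppIn]
  have hcard : ∀ x : Cj c, Nat.card (St (PhiC c) x) = Nat.card Y := by
    intro x
    obtain ⟨g, rfl⟩ := exists_base x
    rw [St_apply, St_base hY, card_cg]
  have hA : Nat.card A = Fintype.card (Cj c) * Nat.card Y := by
    have h2 := FrCAux.sum_St (PhiC c) (base c) Finset.univ (fun x => by
      simp only [Finset.mem_univ, true_iff]
      exact exists_base x)
    rw [← h2, Finset.sum_congr rfl (fun x _ => hcard x), Finset.sum_const, Finset.card_univ,
      smul_eq_mul]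
  have hW : Ws p (⊤ : Subgroup A) b = Fintype.card (Cj c) * Ws p Y (b * c) := by
    have h2 := hfam'.Ws_sum (p := p)
    rw [hsum, Finset.sum_congr rfl (fun x _ => hterm x), Finset.sum_const, Finset.card_univ,
      smul_eq_mul] at h2
    exact h2
  have hirr : Nat.card (Quotient (irrInvSetoid (⊤ : Subgroup A) ⊥ b))
      = Nat.card (Quotient (irrInvSetoid Y ⊥ (b * c))) := by
    have h2 := hfam.card_irr_mul hb (i := base c) hbc
    rw [St_base hY] at h2
    exact h2
  -- the stabilizer
  have hY' : Nat.card Y * Nat.card (Quotient (irrInvSetoid Y ⊥ (b * c))) = Ws p Y (b * c) := by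
    obtain ⟨T, hT1, hT2⟩ := exists_transversal Y (Theta p Y Y (b * c))
    rw [← card_irr_eq, h T hT1 hT2, sum_DZ_eq hblk T hT1 hT2
      (Finset.univ.filter (fun Q : Subgroup A => Q ≤ Y ∧ IsPGroup p Q)) (fun R => by simp), Ws]
  intro T hT1 hT2
  have h3 := sum_DZ_eq hb T hT1 hT2
    (Finset.univ.filter (fun Q : Subgroup A => Q ≤ ⊤ ∧ IsPGroup p Q)) (fun R => by simp)
  have hpos : 0 < Nat.card (⊤ : Subgroup A) := Nat.card_pos
  apply Nat.eq_of_mul_eq_mul_left hpos
  rw [h3, card_irr_eq, hirr]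
  have h4 : Nat.card (⊤ : Subgroup A) = Nat.card A := Subgroup.card_top
  rw [h4, hA, mul_assoc, hY', ← hW, Ws]

end Pool.Agent.Lib.P0c8ca5.Fr
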