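import Mathlib
import Pool.Agent.Lib.P0c8ca5.Defs

/-! # Sections of groups and reduced blocks -/

namespace Pool.Agent.Lib.P0c8ca5

open MonoidAlgebra

/-- `H` is a section of `G`: a homomorphic image of a subgroup of `G`. -/
def IsSection (H G : Type*) [Group H] [Group G] : Prop :=
  ∃ (K : Subgroup G) (f : K →* H), Function.Surjective f

/-- `b` is the idempotent of a reduced block of `H`: `O_p(H) = 1`, `O^p(H) = H`, for every normal
subgroup `N` of `H` there is only one block `c` of `N` which is covered by the block, the block is
faithful (only the identity of `H` acts trivially on `kHb`), every abelian normal subgroup of `H` is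
central, and the centre of `H` is cyclic. -/
structure Reduced (p : ℕ) {k : Type*} [Field k] {H : Type*} [Group H] (b : MonoidAlgebra k H) :
    Prop where
  block : IsBlock ⊤ b
  core : ∀ P : Subgroup H, P.Normal → IsPGroup p P → P = ⊥
  residual : ∀ (N : Subgroup H) [N.Normal], IsPGroup p (H ⧸ N) → N = ⊤
  prim : ∀ N : Subgroup H, N.Normal → ∃! c : MonoidAlgebra k H, IsBlock N c ∧ b * c ≠ 0
  faithful : ∀ x : H, single x (1 : k) * b = b → x = 1
  abelian : ∀ N : Subgroup H, N.Normal → (∀ x ∈ N, ∀ y ∈ N, x * y = y * x) →
    N ≤ Subgroup.center H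
  cyclic : IsCyclic (Subgroup.center H)

end Pool.Agent.Lib.P0c8ca5
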