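import Mathlib
import Pool.Agent.Lib.P0c8ca5P.RedDef
import Pool.Agent.Lib.P0c8ca5P.FrH
import Pool.Agent.Lib.P0c8ca5K.KMain
import Pool.Agent.Lib.P0c8ca5R.Base1
import Pool.Agent.Lib.P0c8ca5R.Inf3
import Pool.Agent.Lib.P0c8ca5R.Inf4
import Pool.Agent.Lib.P0c8ca5.WtEquiv
import Pool.Agent.Lib.P0c8ca5N.TrC
import Pool.Agent.Lib.P0c8ca5N.DefW

/-!
# Reduction of the blockwise weight conjecture to reduced blocks
-/

namespace Pool.Agent.Lib.P0c8ca5

open MonoidAlgebra

universe u v

theorem IsSection.refl (G : Type*) [Group G] : IsSection G G :=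
  ⟨⊤, Subgroup.subtype ⊤, fun x => ⟨⟨x, Subgroup.mem_top x⟩, rfl⟩⟩

theorem IsSection.trans {G₁ G₂ G₃ : Type*} [Group G₁] [Group G₂] [Group G₃]
    (h : IsSection G₁ G₂) (h' : IsSection G₂ G₃) : IsSection G₁ G₃ := by
  obtain ⟨K, f, hf⟩ := h
  obtain ⟨K', f', hf'⟩ := h'
  let L : Subgroup K' := K.comap f'
  let g : L →* K := (f'.comp L.subtype).codRestrict K (fun x => x.2)
  let E : L ≃* L.map K'.subtype := L.equivMapOfInjective _ (Subgroup.subtype_injective _)
  refine ⟨L.map K'.subtype, f.comp (g.comp E.symm.toMonoidHom), ?_⟩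
  intro x
  obtain ⟨y, rfl⟩ := hf x
  obtain ⟨z, hz⟩ := hf' y
  refine ⟨E ⟨z, by change f' z ∈ K; rw [hz]; exact y.2⟩, ?_⟩
  change f (g (E.symm (E _))) = f y
  rw [MulEquiv.symm_apply_apply]
  congr 1
  exact Subtype.ext hz

theorem IsSection.of_subgroup {G : Type*} [Group G] (K : Subgroup G) : IsSection K G :=
  ⟨K, MonoidHom.id K, fun x => ⟨x, rfl⟩⟩

theorem IsSection.of_surjective {G G' : Type*} [Group G] [Group G'] (f : G →* G')
    (hf : Function.Surjective f) : IsSection G' G :=
  ⟨⊤, f.comp (Subgroup.subtype ⊤), fun x => by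
    obtain ⟨y, rfl⟩ := hf x
    exact ⟨⟨y, Subgroup.mem_top y⟩, rfl⟩⟩

theorem IsSection.of_le {G : Type*} [Group G] {K L : Subgroup G} (h : K ≤ L) : IsSection K L :=
  (IsSection.of_surjective (Subgroup.subgroupOfEquivOfLe h).toMonoidHom
    (Subgroup.subgroupOfEquivOfLe h).surjective).trans (IsSection.of_subgroup _)

namespace RedAux

variable {p : ℕ} {k : Type*} [Field k] {A : Type*} [Group A]

theorem hasBr_mono {P Q : Subgroup A} (h : P ≤ Q) {c : MonoidAlgebra k A} (hQ : HasBr Q c) :
    HasBr P c := by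
  obtain ⟨x, hx, hx'⟩ := hQ
  exact ⟨x, Subgroup.centralizer_le h hx, hx'⟩

theorem hasBr_up' {H : Subgroup A} {c : MonoidAlgebra k A} {P : Subgroup ↥H}
    (h : HasBr P (dn H c)) : HasBr (P.map H.subtype) c := by
  obtain ⟨x, hx, hx'⟩ := h
  refine ⟨(x : A), ?_, hx'⟩
  rw [Subgroup.mem_centralizer_iff] at hx ⊢
  rintro y ⟨z, hz, rfl⟩
  exact congrArg Subtype.val (hx z hz)

/-- some block of `N` is covered -/
theorem exists_covered [Fact p.Prime] [CharP k p] [IsAlgClosed k] [Fintype A] (N : Subgroup A)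
    {b : MonoidAlgebra k A} (hb : b ≠ 0) : ∃ c, IsBlock N c ∧ b * c ≠ 0 := by
  classical
  have hfin : {c : MonoidAlgebra k A | IsBlock N c ∧ c * 1 ≠ 0}.Finite :=
    (finite_isBlock (k := k) N).subset (fun c hc => hc.1)
  have hB : ∀ c, c ∈ hfin.toFinset ↔ IsBlock N c ∧ c * 1 ≠ 0 := by
    intro c
    rw [Set.Finite.mem_toFinset]
    rfl
  have h1 := WSumAux.sum_blocks (p := p) (fixAlg k N N).one_mem (one_mul 1) hfin.toFinset hB
  by_contra hcon
  push Not at hcon
  apply hb
  rw [← mul_one b, ← h1, Finset.mul_sum]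
  exact Finset.sum_eq_zero (fun c hc => hcon c ((hB c).1 hc).1)

/-- defect groups modulo a normal p-subgroup, with the image -/
theorem hasBr_infl_sec [Fact p.Prime] [CharP k p] [Fintype A] {K R : Subgroup A}
    (hRK : R ≤ K) (hn : K ≤ Subgroup.normalizer (R : Set A)) (hR : IsPGroup p R)
    {b : MonoidAlgebra k A} (hb : SuppIn K b) (hb' : InvBy K b) (hbb : b * b = b)
    {b' : MonoidAlgebra k (NQ R)} (hblk : IsBlock (sec K R) b') (hne : b' * proj R b ≠ 0)
    {P' : Subgroup (NQ R)} (hP' : P' ≤ sec K R) (hpP' : IsPGroup p P') (hbr : HasBr P' b') :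
    ∃ P : Subgroup A, R ≤ P ∧ P ≤ K ∧ IsPGroup p P ∧ HasBr P b ∧ sec P R = P' := by
  classical
  obtain ⟨P, hRP, hPK, hpP, hsec⟩ := Rk.Inf3Aux.exists_preimage hRK hR hP' hpP'
  refine ⟨P, hRP, hPK, hpP, ?_, hsec⟩
  have hcmem : proj R b ∈ fixAlg k (sec K R) (sec K R) :=
    mem_fixAlg.2 ⟨proj_suppIn hb R, proj_invBy' hb'⟩
  have hcidem : proj R b * proj R b = proj R b := by
    rw [← proj_mul hR (hb'.mono hRK) (hb'.mono hRK), hbb]
  have hcb : proj R b * b' = b' := by
    rcases hblk.mul_eq hcmem hcidem with h | h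
    · exfalso
      apply hne
      rw [commute_of hblk.suppIn (mem_fixAlg.1 hcmem).2, h]
    · exact h
  have hres := resS_mul (p := p) hpP' ((mem_fixAlg.1 hcmem).2.mono hP') (hblk.invBy.mono hP')
  rw [hcb] at hres
  obtain ⟨w, hw, hw0⟩ : ∃ w ∈ Subgroup.centralizer (P' : Set (NQ R)), (proj R b).coeff w ≠ 0 := by
    by_contra hcon
    push Not at hcon
    have h1 : resS (Subgroup.centralizer (P' : Set (NQ R)) : Set (NQ R)) (proj R b) = 0 := by
      ext w
      by_cases hw : w ∈ (Subgroup.centralizer (P' : Set (NQ R)) : Set (NQ R))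
      · rw [coeff_resS_of_mem _ hw, hcon w hw]
        rfl
      · rw [coeff_resS_of_notMem _ hw]
        rfl
    rw [h1, zero_mul] at hres
    obtain ⟨x, hx, hxb⟩ := hbr
    apply hxb
    rw [← coeff_resS_of_mem b' (S := (Subgroup.centralizer (P' : Set (NQ R)) : Set (NQ R))) hx,
      hres]
    rfl
  obtain ⟨n, hnK, hnR, rfl⟩ := mem_sec.1 ((mem_fixAlg.1 hcmem).1 w hw0)
  rw [coeff_proj] at hw0
  rw [Subgroup.mem_centralizer_iff] at hw
  rw [sum_conj_eq (p := p) hpP (fun x => if n⁻¹ * x ∈ R then b.coeff x else 0) ?_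
    (Finset.univ.filter (fun x => x ∈ Subgroup.centralizer (P : Set A))) (fun x => by simp)] at hw0
  · obtain ⟨x, hx, hx0⟩ := Finset.exists_ne_zero_of_sum_ne_zero hw0
    rw [Finset.mem_filter] at hx
    refine ⟨x, hx.2, fun h0 => hx0 ?_⟩
    rw [h0]
    split_ifs <;> rfl
  · intro d hd x
    have hdR : d ∈ Subgroup.normalizer (R : Set A) := hn (hPK hd)
    have hd2 : qm R d hdR ∈ P' := by
      rw [← hsec]
      exact qm_mem_sec _ hd
    have h1 := hw _ hd2
    have h2 : n⁻¹ * d * n * d⁻¹ ∈ R := by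
      have h3 : qm R (n⁻¹ * d * n * d⁻¹) ((Subgroup.normalizer (R : Set A)).mul_mem
          ((Subgroup.normalizer (R : Set A)).mul_mem ((Subgroup.normalizer (R : Set A)).mul_mem
            ((Subgroup.normalizer (R : Set A)).inv_mem hnR) hdR) hnR)
          ((Subgroup.normalizer (R : Set A)).inv_mem hdR)) = 1 := by
        change (qm R n hnR)⁻¹ * qm R d hdR * qm R n hnR * (qm R d hdR)⁻¹ = 1
        rw [mul_assoc (qm R n hnR)⁻¹, h1]
        group
      exact qm_eq_one_iff.1 h3
    have hcond : n⁻¹ * (d * x * d⁻¹) ∈ R ↔ n⁻¹ * x ∈ R := by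
      have e1 : n⁻¹ * (d * x * d⁻¹) = (n⁻¹ * d * n * d⁻¹) * (d * (n⁻¹ * x) * d⁻¹) := by group
      rw [e1, R.mul_mem_cancel_left h2]
      exact ((Subgroup.mem_normalizer_iff.1 hdR) _).symm
    simp only [hcond]
    rw [hb' d (hPK hd) x]

theorem isSection_sec [Finite A] {K R : Subgroup A} (hn : K ≤ Subgroup.normalizer (R : Set A)) :
    IsSection ↥(sec K R) K := by
  let α : ↥K →* NQ R := (QuotientGroup.mk' _).comp (Subgroup.inclusion hn)
  have hα : ∀ x, α x ∈ sec K R := fun x => qm_mem_sec (hn x.2) x.2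
  refine IsSection.of_surjective (α.codRestrict (sec K R) hα) ?_
  rintro ⟨w, hw⟩
  obtain ⟨x, hx, hx', rfl⟩ := mem_sec.1 hw
  exact ⟨⟨x, hx⟩, rfl⟩

/-- in a group without normal p-subgroups the abelian normal subgroups are p'-groups -/
theorem not_dvd_of_abelian [Fact p.Prime] [Finite A]
    (hA : ∀ P : Subgroup A, P.Normal → IsPGroup p P → P = ⊥) {N : Subgroup A} (hN : N.Normal)
    (hcomm : ∀ x ∈ N, ∀ y ∈ N, x * y = y * x) : ¬ p ∣ Nat.card N := by
  intro hdvd
  let P : Subgroup A :=
    { carrier := {x | x ∈ N ∧ ∃ n : ℕ, x ^ p ^ n = 1}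
      mul_mem' := by
        rintro x y ⟨hx, m, hm⟩ ⟨hy, n, hn⟩
        refine ⟨N.mul_mem hx hy, m + n, ?_⟩
        have h1 : (x * y) ^ p ^ (m + n) = x ^ p ^ (m + n) * y ^ p ^ (m + n) :=
          (show Commute x y from hcomm x hx y hy).mul_pow _
        rw [h1, pow_add, pow_mul, hm, one_pow, mul_comm (p ^ m), pow_mul, hn, one_pow, one_mul]
      one_mem' := ⟨N.one_mem, 0, one_pow _⟩
      inv_mem' := by
        rintro x ⟨hx, m, hm⟩
        exact ⟨N.inv_mem hx, m, by rw [inv_pow, hm, inv_one]⟩ }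
  have hPn : P.Normal := by
    refine ⟨fun x hx g => ?_⟩
    obtain ⟨h1, m, h2⟩ := hx
    refine ⟨hN.conj_mem x h1 g, m, ?_⟩
    rw [conj_pow, h2, mul_one, mul_inv_cancel]
  have hPp : IsPGroup p P := by
    intro x
    obtain ⟨m, h2⟩ := x.2.2
    exact ⟨m, Subtype.ext h2⟩
  have hPbot := hA P hPn hPp
  obtain ⟨x, hx⟩ := exists_prime_orderOf_dvd_card' p hdvd
  have h1 : (x : A) ∈ P := by
    refine ⟨x.2, 1, ?_⟩
    rw [pow_one, ← hx]
    exact congrArg Subtype.val (pow_orderOf_eq_one x)
  rw [hPbot, Subgroup.mem_bot] at h1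
  have h2 : x = 1 := Subtype.ext h1
  rw [h2, orderOf_one] at hx
  exact (Fact.out : p.Prime).one_lt.ne hx

theorem isSection_map {H : Subgroup A} (P : Subgroup ↥H) :
    IsSection P (P.map H.subtype : Subgroup A) :=
  IsSection.of_surjective
    (P.equivMapOfInjective _ (Subgroup.subtype_injective _)).symm.toMonoidHom
    (P.equivMapOfInjective _ (Subgroup.subtype_injective _)).symm.surjective

end RedAux

open RedAux

/-- the defect groups of the block satisfy `C` -/
def DefCond (C : ∀ (P : Type u) [Group P], Prop) (p : ℕ) {k : Type v} [Field k] {H : Type u}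
    [Group H] (b : MonoidAlgebra k H) : Prop :=
  ∀ P : Subgroup H, IsPGroup p P → HasBr P b → C P

/-- the reduction of the blockwise weight conjecture to reduced blocks -/
theorem baw_of_reduced {p : ℕ} [Fact p.Prime] {k : Type v} [Field k] [IsAlgClosed k] [CharP k p]
    {G₀ : Type*} [Group G₀] (C : ∀ (P : Type u) [Group P], Prop)
    (hC : ∀ (P P' : Type u) [Group P] [Group P'], IsSection P' P → C P → C P')
    (hred : ∀ (H : Type u) [Group H] [Finite H], IsSection H G₀ → ∀ b : MonoidAlgebra k H,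
      Reduced p b → DefCond C p b →
      (∃ P : Subgroup H, IsPGroup p P ∧ HasBr P b ∧ p < Nat.card P) → NavarroEq p ⊤ ⊤ b) :
    ∀ (n : ℕ) (H : Type u) [Group H] [Finite H], Nat.card H = n → IsSection H G₀ →
      ∀ b : MonoidAlgebra k H, IsBlock ⊤ b → DefCond C p b → NavarroEq p ⊤ ⊤ b := by
  intro n
  induction n using Nat.strong_induction_on with
  | _ n ih =>
  intro H _ _ hcard hsec b hb hdef
  classical
  have : Fintype H := Fintype.ofFinite H
  -- subgroups and sections
  have hsub : ∀ (Y : Subgroup H) (c : MonoidAlgebra k H), Y ≠ ⊤ → IsBlock Y c →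
      (∀ P : Subgroup H, P ≤ Y → IsPGroup p P → HasBr P c → C P) → NavarroEq p Y Y c := by
    intro Y c hY hc hdc
    apply navarro_transport hc
    refine ih (Nat.card Y) ?_ Y rfl ((IsSection.of_subgroup Y).trans hsec) _ (dn_isBlock hc) ?_
    · rw [← hcard]
      exact lt_of_le_of_ne (Subgroup.card_le_card_group Y) (fun h => hY (Subgroup.eq_top_of_card_eq Y h))
    · intro P hpP hbr
      refine hC _ _ (isSection_map P) (hdc _ ?_ (hpP.map _) (hasBr_up' hbr))
      rintro _ ⟨x, _, rfl⟩
      exact x.2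
  -- Step A: a normal p-subgroup
  by_cases hA : ∃ R : Subgroup H, R.Normal ∧ IsPGroup p R ∧ R ≠ ⊥
  · obtain ⟨R, hRn, hpR, hRne⟩ := hA
    have hn : (⊤ : Subgroup H) ≤ Subgroup.normalizer (R : Set H) := by
      rw [Subgroup.normalizer_eq_top]
    apply Rk.navarro_infl le_top hn hpR hb
    intro b' hb' hne'
    have : Fintype (NQ R) := Fintype.ofFinite _
    apply navarro_transport hb'
    refine ih (Nat.card ↥(sec ⊤ R)) ?_ ↥(sec ⊤ R) rfl ?_ _ (dn_isBlock hb') ?_
    · have h1 := Rk.Inf3Aux.card_secK (K := ⊤) (R := R) le_top hn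
      rw [Subgroup.card_top, hcard] at h1
      have h2 : 1 < Nat.card R := by
        rw [Subgroup.one_lt_card_iff_ne_bot]
        exact hRne
      have h3 : 0 < Nat.card ↥(sec ⊤ R) := Nat.card_pos
      rw [h1]
      exact lt_mul_of_one_lt_left h3 h2
    · exact ((isSection_sec hn).trans (IsSection.of_subgroup _)).trans hsec
    · intro P hpP hbr
      have hP' : P.map (sec ⊤ R).subtype ≤ sec ⊤ R := by
        rintro _ ⟨y, _, rfl⟩
        exact y.2
      obtain ⟨P₁, h1, h2, h3, h4, h5⟩ := hasBr_infl_sec (p := p) le_top hn hpR hb.suppIn hb.invBy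
        hb.idem hb' hne' hP' (hpP.map _) (hasBr_up' hbr)
      refine hC _ _ ?_ (hdef P₁ h3 h4)
      have h6 : IsSection ↥(sec P₁ R) P₁ := isSection_sec (h2.trans hn)
      rw [h5] at h6
      exact (isSection_map P).trans h6
  push Not at hA
  -- Step B: a block of a normal subgroup that is not invariant
  by_cases hB : ∃ (N : Subgroup H) (c : MonoidAlgebra k H) (g : H), N.Normal ∧ IsBlock N c ∧
      b * c ≠ 0 ∧ cj g c ≠ c
  · obtain ⟨N, c, g, hN, hc, hbc, hgc⟩ := hB
    let Y : Subgroup H :=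
      { carrier := {g | cj g c = c}
        mul_mem' := by
          intro x y hx hy
          change cj (x * y) c = c
          rw [← cj_cj, hy, hx]
        one_mem' := cj_one_left c
        inv_mem' := by
          intro x hx
          change cj x⁻¹ c = c
          have h1 : cj x⁻¹ (cj x c) = cj x⁻¹ c := congrArg (cj x⁻¹) hx
          rw [cj_cj, inv_mul_cancel, cj_one_left] at h1
          exact h1.symm }
    have hY : ∀ g, g ∈ Y ↔ cj g c = c := fun g => Iff.rfl
    have hYne : Y ≠ ⊤ := by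
      intro h0
      apply hgc
      rw [← hY, h0]
      exact Subgroup.mem_top g
    apply Fr.navarro_stab hN hb hc hbc hY
    apply hsub Y _ hYne (Fr.isBlock_stab hN hb hc hbc hY)
    intro P hPY hpP hbr
    exact hdef P hpP (Fr.hasBr_stab hN hb hc hY hPY hpP hbr)
  push Not at hB
  -- Step C: a normal subgroup of `p`-power index
  by_cases hR : ∃ (N : Subgroup H) (_ : N.Normal), IsPGroup p (H ⧸ N) ∧ N ≠ ⊤
  · obtain ⟨N, hN, hpN, hNne⟩ := hR
    obtain ⟨c, hc, hbc⟩ := exists_covered (p := p) N hb.ne_zero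
    have hinv : InvBy ⊤ c := by
      rw [invBy_iff_cj]
      intro g _
      exact hB N c g hN hc hbc
    have hp : ∀ x : H, ∃ n : ℕ, x ^ p ^ n ∈ N := by
      intro x
      obtain ⟨n, hn⟩ := hpN (QuotientGroup.mk x)
      refine ⟨n, ?_⟩
      rwa [← QuotientGroup.mk_pow, QuotientGroup.eq_one_iff] at hn
    have hbc' : b = c := by
      rcases hb.eq_or_mul_eq_zero (isBlock_up le_top hp hc hinv) with h | h
      · exact h
      · exact absurd h hbc
    have h1 : ∀ H', N ≤ H' → NavarroEq p N H' c := by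
      intro H' hNH'
      apply navarro_of_baw hNH' (fun x _ => mem_norm_of_normal N x) (fun x _ => hp x) hc
        (hinv.mono le_top)
      intro σ hne hσ hσS b' hb' hbe
      apply hsub _ _ _ hb'
      · intro P hP hpP hbr
        apply hdef P hpP
        rw [hbc']
        exact hasBr_of_chain_block hNH' hc (hinv.mono le_top) hne hσ hσS hb' hbe hpP hP hbr
      · intro h0
        apply hNne
        rw [eq_top_iff, ← h0]
        exact inf_le_left
    have key := equivariant_iff (p := p) hp hc hinv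
    rw [hbc']
    apply key.2 (key.1.1 h1) ⊤ ⊤ le_top le_rfl
    rw [Subgroup.normalizer_eq_top]
  push Not at hR
  -- the unique block covered is a central idempotent above `b`
  have hcen : ∀ (N : Subgroup H) (c' : MonoidAlgebra k H), N.Normal → IsBlock N c' → b * c' ≠ 0 →
      InvBy ⊤ c' ∧ b * c' = b := by
    intro N c' hN hc' hbc'
    have hinv : InvBy (⊤ : Subgroup H) c' := by
      rw [invBy_iff_cj]
      intro g _
      exact hB N c' g hN hc' hbc'
    have hmem : c' ∈ fixAlg k (⊤ : Subgroup H) ⊤ :=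
      mem_fixAlg.2 ⟨fun _ _ => Subgroup.mem_top _, hinv⟩
    refine ⟨hinv, ?_⟩
    rw [Fr.comm_top hb.mem c']
    rcases hb.mul_eq hmem hc'.idem with h | h
    · exfalso
      apply hbc'
      rw [Fr.comm_top hb.mem c', h]
    · exact h
  -- Step K: the kernel
  let K : Subgroup H :=
    { carrier := {x | single x (1 : k) * b = b}
      mul_mem' := by
        intro x y hx hy
        change single (x * y) (1 : k) * b = b
        have h1 : single (x * y) (1 : k) = single x 1 * single y 1 := by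
          rw [single_mul_single, one_mul]
        rw [h1, mul_assoc, show single y (1 : k) * b = b from hy]
        exact hx
      one_mem' := by
        change single (1 : H) (1 : k) * b = b
        exact one_mul b
      inv_mem' := by
        intro x hx
        change single x⁻¹ (1 : k) * b = b
        have h1 : single x⁻¹ (1 : k) * (single x 1 * b) = b := by
          rw [← mul_assoc, single_mul_single, inv_mul_cancel, one_mul]
          exact one_mul b
        rwa [show single x (1 : k) * b = b from hx] at h1 }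
  have hKmem : ∀ x, x ∈ K ↔ single x (1 : k) * b = b := fun x => Iff.rfl
  by_cases hK : K ≠ ⊥
  · have hKn : K.Normal := by
      refine ⟨fun x hx g => ?_⟩
      rw [hKmem] at hx ⊢
      have h1 := congrArg (cj g) hx
      rw [cj_mul, Fr.cj_top hb.mem] at h1
      have h2 : cj g (single x (1 : k)) = single (g * x * g⁻¹) 1 := by
        rw [cj, single_mul_single, single_mul_single, one_mul, one_mul]
      rwa [h2] at h1
    let π : H →* H ⧸ K := QuotientGroup.mk' K
    have hπ : Function.Surjective π := QuotientGroup.mk'_surjective K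
    have hkerK : π.ker = K := QuotientGroup.ker_mk' K
    have hker : (Nat.card π.ker : k) ≠ 0 := by
      rw [hkerK]
      exact Kr.card_kernel_ne_zero (p := p) hb.mem hb.idem hb.ne_zero (fun x hx => hx)
    have hKT : Kr.KT π b := Kr.KT_of_ker (fun x hx => by
      have h1 : x ∈ π.ker := hx
      rw [hkerK] at h1
      exact h1)
    have : Fintype (H ⧸ K) := Fintype.ofFinite _
    apply Kr.navarro_pm hπ hker hb hKT
    refine ih (Nat.card (H ⧸ K)) ?_ (H ⧸ K) rfl ((IsSection.of_surjective π hπ).trans hsec) _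
      (Kr.isBlock_pm hπ hker hb hKT) ?_
    · have h1 : Nat.card H = Nat.card (H ⧸ K) * Nat.card K :=
        Subgroup.card_eq_card_quotient_mul_card_subgroup K
      have h2 : 1 < Nat.card K := by
        rw [Subgroup.one_lt_card_iff_ne_bot]
        exact hK
      rw [← hcard, h1]
      exact lt_mul_of_one_lt_right Nat.card_pos h2
    · intro P' hpP' hbr
      obtain ⟨P, h1, h2, h3⟩ := Kr.exists_hasBr_of_pm hπ hker hb.invBy hpP' hbr
      refine hC _ _ ?_ (hdef P h1 h3)
      subst h2
      exact IsSection.of_surjective (π.subgroupMap P) (π.subgroupMap_surjective P)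
  push Not at hK
  have hfaith : ∀ x : H, single x (1 : k) * b = b → x = 1 := by
    intro x hx
    have h1 : x ∈ K := hx
    rwa [hK, Subgroup.mem_bot] at h1
  -- Step D: small defect
  by_cases hD : ∀ P : Subgroup H, IsPGroup p P → HasBr P b → Nat.card P ≤ p
  · exact Rk.base hb hD
  push Not at hD
  have hAb : ∀ N : Subgroup H, N.Normal → (∀ x ∈ N, ∀ y ∈ N, x * y = y * x) →
      N ≤ Subgroup.center H ∧ IsCyclic N := by
    intro N hN hcomm
    obtain ⟨c, hc, hbc⟩ := exists_covered (p := p) N hb.ne_zero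
    obtain ⟨hinv, hbc'⟩ := hcen N c hN hc hbc
    have hp := not_dvd_of_abelian hA hN hcomm
    exact ⟨Kr.central_of_abelian hN hcomm hp hb.mem hc hinv hbc' hfaith,
      Kr.cyclic_of_abelian hcomm hp hb.mem hc hbc' hfaith⟩
  refine hred H hsec b ⟨hb, fun P hP hpP => hA P hP hpP, fun N hN hpN => hR N hN hpN, ?_, hfaith,
    fun N hN hcomm => (hAb N hN hcomm).1, ?_⟩ hdef hD
  · intro N hN
    obtain ⟨c, hc, hbc⟩ := exists_covered (p := p) N hb.ne_zero
    refine ⟨c, ⟨hc, hbc⟩, ?_⟩
    rintro c' ⟨hc', hbc'⟩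
    rcases hc'.eq_or_mul_eq_zero hc with h | h
    · exact h
    · exfalso
      apply hbc
      have h1 : b * c' * c = b * c := by rw [(hcen N c' hN hc' hbc').2]
      rw [← h1, mul_assoc, h, mul_zero]
  · refine (hAb (Subgroup.center H) inferInstance ?_).2
    intro x hx y _
    exact ((Subgroup.mem_center_iff.1 hx) y).symm

end Pool.Agent.Lib.P0c8ca5
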